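import Pool.Agent.V7H59.CA.Fin

/-!
# Linear cellular arrays for languages in linear space
-/

set_option autoImplicit false

namespace Pool.Agent.V7H59.CA

open Pool.Agent.NPC Pool.Agent.V7H59.CT
open Function (update)

variable {K : Type} [DecidableEq K] [Zero K]

/-- The first configuration. -/
def cfg0 (x : List Bool) : ℕ → Option (St K) :=
  fun i => if 1 ≤ i then (x[i - 1]?).map Sum.inl else none

/-- The contents after the first step. -/
def T0 (x : List Bool) : ℕ → K → List Bool :=
  fun i k => if k = 0 then (x[i - 1]?).toList else []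

theorem cat_nil (p m : ℕ) : cat (fun _ => []) p m = [] := by
  induction m generalizing p with
  | zero => rfl
  | succ m ih => rw [cat, ih]; rfl

theorem cat_get (x : List Bool) (m : ℕ) : ∀ p, 1 ≤ p → p + m = x.length + 1 →
    cat (fun i => (x[i - 1]?).toList) p m = x.drop (p - 1) := by
  induction m with
  | zero =>
    intro p h1 h2
    rw [cat, List.drop_eq_nil_of_le (by omega)]
  | succ m ih =>
    intro p h1 h2
    have h3 : p - 1 < x.length := by omega
    rw [cat, ih (p + 1) (by omega) (by omega), List.drop_eq_getElem_cons h3,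
      List.getElem?_eq_getElem h3]
    have h4 : p + 1 - 1 = p - 1 + 1 := by omega
    rw [h4]
    rfl

theorem rep_T0 {D : ℕ} (hD : 1 ≤ D) (x : List Bool) :
    Rep D x.length (T0 x : ℕ → K → List Bool) (inp x) := by
  refine ⟨fun i k => ?_, fun k => ?_⟩
  · unfold T0
    split_ifs
    · cases x[i - 1]? <;> simp <;> omega
    · simp
  · by_cases hk : k = 0
    · subst hk
      have e : (fun i => (T0 x : ℕ → K → List Bool) i 0) = fun i => (x[i - 1]?).toList := by
        funext i
        unfold T0
        rw [if_pos rfl]
      rw [e, cat_get x x.length 1 le_rfl (by omega), Nat.sub_self, List.drop_zero]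
      unfold inp
      rw [Function.update_self]
    · have e : (fun i => (T0 x : ℕ → K → List Bool) i k) = fun _ => [] := by
        funext i
        unfold T0
        rw [if_neg hk]
      rw [e, cat_nil]
      unfold inp
      rw [Function.update_of_ne hk]

theorem step_cfg0 (D : ℕ) (c₀ : Cmd K) (x : List Bool) :
    stepA (rule D c₀) x.length (cfg0 x) = emb x.length 1 (Ctl.run (Sum.inl [c₀])) (T0 x) := by
  funext i
  unfold stepA emb
  by_cases hi : 1 ≤ i ∧ i ≤ x.length
  · rw [if_pos hi, if_pos hi]
    have h1 : i - 1 < x.length := by omega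
    have e : (cfg0 x : ℕ → Option (St K)) i = some (Sum.inl x[i - 1]) := by
      unfold cfg0
      rw [if_pos hi.1, List.getElem?_eq_getElem h1]
      rfl
    have el : ((cfg0 x : ℕ → Option (St K)) (i - 1)).isNone = decide (i = 1) := by
      unfold cfg0
      by_cases h : i = 1
      · subst h; rfl
      · have h2 : i - 1 - 1 < x.length := by omega
        rw [if_pos (by omega), List.getElem?_eq_getElem h2]
        simp [h]
    rw [e]
    unfold rule
    simp only [el]
    congr 3
    · by_cases h : i = 1 <;> simp [h]
    · funext k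
      unfold T0
      rw [List.getElem?_eq_getElem h1]
      rfl
  · rw [if_neg hi, if_neg hi]

/-- The accepting states. -/
def AccS : Set (St K) := {s | ∃ T, s = Sum.inr (some (Ctl.run (Sum.inr true)), T)}

theorem absorbing {D n : ℕ} (hn : 1 ≤ n) {c₀ : Cmd K} {cfg : ℕ → Option (St K)} {b : Bool}
    {T : K → List Bool} (h : cfg 1 = some (Sum.inr (some (Ctl.run (Sum.inr b)), T))) (t : ℕ) :
    ((stepA (rule D c₀) n)^[t] cfg) 1 = some (Sum.inr (some (Ctl.run (Sum.inr b)), T)) := by
  induction t with
  | zero => exact h
  | succ t ih =>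
    rw [Function.iterate_succ_apply']
    unfold stepA at ih ⊢
    rw [if_pos ⟨le_rfl, hn⟩, ih]
    rfl

/-- The array decides. -/
theorem acc_iff {D m₀ : ℕ} {c₀ : Cmd K} {x : List Bool} (hD : 1 ≤ D) (hx : 1 ≤ x.length)
    (hm : m₀ ≤ D * x.length) {b : Bool} (h : RunS m₀ c₀ (inp x) (inp [b])) :
    (∃ t, ∃ s ∈ (AccS : Set (St K)),
      ((stepA (rule D c₀) x.length)^[t] (cfg0 x)) 1 = some s) ↔ b = true := by
  obtain ⟨T1, r1, r2⟩ := sim hm hx h [] (T0 x) (rep_T0 hD x)
  have r3 : Rch D x.length (1, Ctl.run (Sum.inl []), T1) (1, Ctl.run (Sum.inr b), T1) := by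
    refine Relation.ReflTransGen.head (run_start hx _ T1) ?_
    have := sim_test hx r1 0 ([] : List (Cmd K))
    have e : (inp [b] : K → List Bool) 0 = [b] := by
      unfold inp
      rw [Function.update_self]
    rw [e] at this
    have e2 : nxt ([] : List (Cmd K)) [b].head? = Sum.inr b := by
      cases b <;> rfl
    rw [e2] at this
    exact this
  obtain ⟨t1, ht1⟩ := Rch.steps (r2.trans r3) c₀
  have hfin : ((stepA (rule D c₀) x.length)^[t1 + 1] (cfg0 x)) 1 =
      some (Sum.inr (some (Ctl.run (Sum.inr b)), T1 1)) := by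
    rw [Function.iterate_succ_apply, step_cfg0]
    have := congrFun ht1 1
    rw [this]
    unfold emb
    rw [if_pos ⟨le_rfl, hx⟩, if_pos rfl]
  constructor
  · rintro ⟨t, s, ⟨T, rfl⟩, ht⟩
    have h1 := absorbing (D := D) (c₀ := c₀) hx ht (t1 + 1)
    have h2 := absorbing (D := D) (c₀ := c₀) hx hfin t
    rw [← Function.iterate_add_apply] at h1 h2
    rw [add_comm, h1] at h2
    simp only [Option.some.injEq, Sum.inr.injEq, Prod.mk.injEq, Ctl.run.injEq] at h2
    exact h2.1.symm
  · rintro rfl
    exact ⟨t1 + 1, _, ⟨T1 1, rfl⟩, hfin⟩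

omit [DecidableEq K] [Zero K] in
/-- An array with finitely many states can use the states `Fin m`. -/
theorem finite_array {S : Type} {G : Set S} (hG : G.Finite)
    (δ : Option S → Option S → Option S → S)
    (hcl : ∀ l c r, (∀ x, l = some x → x ∈ G) → (∀ x, c = some x → x ∈ G) →
      (∀ x, r = some x → x ∈ G) → δ l c r ∈ G) {k : ℕ} (init : Fin k → S)
    (hi : ∀ a, init a ∈ G) (A : Set S) :
    ∃ (m : ℕ) (init' : Fin k → Fin m) (δ' : Option (Fin m) → Option (Fin m) → Option (Fin m) → Fin m)
      (F : Finset (Fin m)), ∀ w : List (Fin k), (∃ t, ∃ q ∈ F,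
        ((stepA δ' w.length)^[t] (fun i => if 1 ≤ i then (w[i - 1]?).map init' else none)) 1 =
          some q) ↔ (∃ t, ∃ s ∈ A,
        ((stepA δ w.length)^[t] (fun i => if 1 ≤ i then (w[i - 1]?).map init else none)) 1 =
          some s) := by
  classical
  have : Fintype G := hG.fintype
  set e := Fintype.equivFin G with he
  set dec : Fin (Fintype.card G) → S := fun i => (e.symm i).1 with hdec
  have hdec' : ∀ i, dec i ∈ G := fun i => (e.symm i).2
  have hm : ∀ (o : Option (Fin (Fintype.card G))) x, o.map dec = some x → x ∈ G := by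
    intro o x hx
    cases o with
    | none => simp at hx
    | some i =>
      rw [Option.map_some, Option.some.injEq] at hx
      rw [← hx]
      exact hdec' i
  set δ' : Option (Fin (Fintype.card G)) → Option (Fin (Fintype.card G)) →
      Option (Fin (Fintype.card G)) → Fin (Fintype.card G) := fun l c r =>
    e ⟨δ (l.map dec) (c.map dec) (r.map dec), hcl _ _ _ (hm l) (hm c) (hm r)⟩ with hδ'
  have hδ : ∀ l c r, dec (δ' l c r) = δ (l.map dec) (c.map dec) (r.map dec) := by
    intro l c r
    simp only [hdec, hδ', Equiv.symm_apply_apply]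
  set init' : Fin k → Fin (Fintype.card G) := fun a => e ⟨init a, hi a⟩ with hinit'
  have hinit : ∀ a, dec (init' a) = init a := by
    intro a
    simp only [hdec, hinit', Equiv.symm_apply_apply]
  refine ⟨Fintype.card G, init', δ', Finset.univ.filter fun i => dec i ∈ A, fun w => ?_⟩
  have key : ∀ t i, (((stepA δ' w.length)^[t]
      (fun i => if 1 ≤ i then (w[i - 1]?).map init' else none)) i).map dec =
      ((stepA δ w.length)^[t] (fun i => if 1 ≤ i then (w[i - 1]?).map init else none)) i := by
    intro t
    induction t with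
    | zero =>
      intro i
      simp only [Function.iterate_zero, id]
      split_ifs
      · rw [Option.map_map]
        congr 1
        funext a
        exact hinit a
      · rfl
    | succ t ih =>
      intro i
      rw [Function.iterate_succ_apply', Function.iterate_succ_apply']
      conv_lhs => unfold stepA
      conv_rhs => unfold stepA
      split_ifs
      · rw [Option.map_some, hδ]
        have e1 := ih (i - 1)
        have e2 := ih i
        have e3 := ih (i + 1)
        unfold stepA at e1 e2 e3
        rw [e1, e2, e3]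
      · rfl
  constructor
  · rintro ⟨t, q, hq, ht⟩
    refine ⟨t, dec q, (Finset.mem_filter.1 hq).2, ?_⟩
    rw [← key, ht]
    rfl
  · rintro ⟨t, s, hs, ht⟩
    rw [← key] at ht
    rw [Option.map_eq_some_iff] at ht
    obtain ⟨q, hq, rfl⟩ := ht
    exact ⟨t, q, Finset.mem_filter.2 ⟨Finset.mem_univ _, hs⟩, hq⟩

/-- The word as a list of bits. -/
def toB (w : List (Fin 2)) : List Bool := w.map fun a => decide (a = 1)

/-- **Languages in linear space are accepted by linear cellular arrays.** -/
theorem exists_array {N : ℕ} (c : Cmd (Fin (N + 1))) (C : ℕ) (f : List Bool → Bool)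
    (h : ∀ x : List Bool, RunS (C * (x.length + 1)) c (inp x) (inp [f x])) :
    ∃ (m : ℕ) (init : Fin 2 → Fin m) (δ : Option (Fin m) → Option (Fin m) → Option (Fin m) → Fin m)
      (F : Finset (Fin m)), ∀ w : List (Fin 2), (∃ t, ∃ q ∈ F,
        ((stepA δ w.length)^[t] (fun i => if 1 ≤ i then (w[i - 1]?).map init else none)) 1 =
          some q) ↔ (w ≠ [] ∧ f (toB w) = true) := by
  set D := 2 * C + 1 with hD
  obtain ⟨m, init, δ, F, hF⟩ := finite_array (finite_GS D c) (rule D c)
    (fun l c' r hl hc hr => rule_good (by omega) hl hc hr)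
    (fun a : Fin 2 => (Sum.inl (decide (a = 1)) : St (Fin (N + 1)))) (fun a => trivial)
    (AccS : Set (St (Fin (N + 1))))
  refine ⟨m, init, δ, F, fun w => ?_⟩
  rw [hF w]
  have e : (fun i => if 1 ≤ i then (w[i - 1]?).map
      (fun a : Fin 2 => (Sum.inl (decide (a = 1)) : St (Fin (N + 1)))) else none) =
      cfg0 (toB w) := by
    funext i
    unfold cfg0 toB
    split_ifs
    · rw [List.getElem?_map, Option.map_map]
      rfl
    · rfl
  rw [e]
  have el : (toB w).length = w.length := by
    unfold toB
    rw [List.length_map]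
  rw [← el]
  rcases Nat.eq_zero_or_pos w.length with h0 | h0
  · have hw : w = [] := List.length_eq_zero_iff.1 h0
    subst hw
    constructor
    · rintro ⟨t, s, _, ht⟩
      exfalso
      cases t with
      | zero => simp [cfg0, toB] at ht
      | succ t =>
        rw [Function.iterate_succ_apply'] at ht
        conv_lhs at ht => unfold stepA
        rw [if_neg (by simp [toB])] at ht
        exact absurd ht (by simp)
    · rintro ⟨h1, _⟩
      exact absurd rfl h1
  · have hw : w ≠ [] := fun h1 => by rw [h1] at h0; simp at h0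
    rw [acc_iff (m₀ := C * ((toB w).length + 1)) (by omega) (by omega) (by
      rw [hD, el]
      nlinarith) (h (toB w))]
    exact ⟨fun h1 => ⟨hw, h1⟩, fun h1 => h1.2⟩

end Pool.Agent.V7H59.CA
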