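import Pool.Agent.V7H59.CA.Sim

/-!
# Finitely many states
-/

set_option autoImplicit false

namespace Pool.Agent.V7H59.CA

open Pool.Agent.NPC Pool.Agent.V7H59.CT
open Function (update)

variable {K : Type} [DecidableEq K] [Zero K]

/-- The continuations reached by a program. -/
def reach : Cmd K → List (Cmd K) → Set (List (Cmd K))
  | Cmd.skip, l => {Cmd.skip :: l}
  | Cmd.push k b, l => {Cmd.push k b :: l}
  | Cmd.pop k, l => {Cmd.pop k :: l}
  | Cmd.seq a b, l => insert (Cmd.seq a b :: l) (reach a (b :: l) ∪ reach b l)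
  | Cmd.cases k a b c, l => insert (Cmd.cases k a b c :: l) (reach a l ∪ (reach b l ∪ reach c l))
  | Cmd.loop k a, l => insert (Cmd.loop k a :: l) (reach a (Cmd.loop k a :: l))

omit [DecidableEq K] [Zero K] in
theorem reach_finite (c : Cmd K) : ∀ l, (reach c l).Finite := by
  induction c with
  | skip => intro l; exact Set.finite_singleton _
  | push k b => intro l; exact Set.finite_singleton _
  | pop k => intro l; exact Set.finite_singleton _
  | seq a b iha ihb => intro l; exact ((iha _).union (ihb _)).insert _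
  | cases k a b c iha ihb ihc => intro l; exact ((iha _).union ((ihb _).union (ihc _))).insert _
  | loop k a iha => intro l; exact (iha _).insert _

omit [DecidableEq K] [Zero K] in
theorem mem_reach (c : Cmd K) (l : List (Cmd K)) : c :: l ∈ reach c l := by
  cases c <;> simp [reach]

/-- The good continuations. -/
def RC (R : Set (List (Cmd K))) : Cont K → Prop
  | Sum.inl s => s ∈ R
  | Sum.inr _ => True

/-- The good states of the head. -/
def GC (R : Set (List (Cmd K))) : Ctl K → Prop
  | Ctl.run s => RC R s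
  | Ctl.push _ _ s => RC R s
  | Ctl.pop _ s => RC R s
  | Ctl.test _ s => s ∈ R
  | Ctl.ret s => RC R s

omit [DecidableEq K] in
theorem reach_closed (R : Set (List (Cmd K))) (c : Cmd K) : ∀ l, reach c l ⊆ R → l ∈ R →
    ∀ s ∈ reach c l, GC R (startC (Sum.inl s)) ∧ ∀ o, RC R (nxt s o) := by
  induction c with
  | skip =>
    intro l _ hl s hs
    rw [reach, Set.mem_singleton_iff] at hs
    subst hs
    exact ⟨hl, fun o => hl⟩
  | push k b =>
    intro l _ hl s hs
    rw [reach, Set.mem_singleton_iff] at hs
    subst hs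
    exact ⟨hl, fun o => hl⟩
  | pop k =>
    intro l _ hl s hs
    rw [reach, Set.mem_singleton_iff] at hs
    subst hs
    exact ⟨hl, fun o => hl⟩
  | seq a b iha ihb =>
    intro l hR hl s hs
    rw [reach, Set.insert_subset_iff, Set.union_subset_iff] at hR
    rw [reach, Set.mem_insert_iff, Set.mem_union] at hs
    rcases hs with rfl | hs | hs
    · exact ⟨hR.2.1 (mem_reach a _), fun o => hl⟩
    · exact iha _ hR.2.1 (hR.2.2 (mem_reach b l)) s hs
    · exact ihb _ hR.2.2 hl s hs
  | cases k a b c iha ihb ihc =>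
    intro l hR hl s hs
    rw [reach, Set.insert_subset_iff, Set.union_subset_iff, Set.union_subset_iff] at hR
    rw [reach, Set.mem_insert_iff, Set.mem_union, Set.mem_union] at hs
    rcases hs with rfl | hs | hs | hs
    · refine ⟨hR.1, fun o => ?_⟩
      rcases o with _ | _ | _
      · exact hR.2.1 (mem_reach a l)
      · exact hR.2.2.1 (mem_reach b l)
      · exact hR.2.2.2 (mem_reach c l)
    · exact iha _ hR.2.1 hl s hs
    · exact ihb _ hR.2.2.1 hl s hs
    · exact ihc _ hR.2.2.2 hl s hs
  | loop k a iha =>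
    intro l hR hl s hs
    rw [reach, Set.insert_subset_iff] at hR
    rw [reach, Set.mem_insert_iff] at hs
    rcases hs with rfl | hs
    · refine ⟨hR.1, fun o => ?_⟩
      rcases o with _ | _
      · exact hl
      · exact hR.2 (mem_reach a _)
    · exact iha _ hR.2 hR.1 s hs

/-- All continuations. -/
def RR (c : Cmd K) : Set (List (Cmd K)) := insert [] (reach c [])

omit [DecidableEq K] in
theorem RR_closed (c : Cmd K) {s : List (Cmd K)} (hs : s ∈ RR c) :
    GC (RR c) (startC (Sum.inl s)) ∧ ∀ o, RC (RR c) (nxt s o) := by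
  have h0 : [] ∈ RR c := Set.mem_insert _ _
  have h1 : reach c [] ⊆ RR c := Set.subset_insert _ _
  rcases hs with rfl | hs
  · exact ⟨h0, fun o => trivial⟩
  · exact reach_closed (RR c) c [] h1 h0 s hs

/-- The good states. -/
def GS (D : ℕ) (c : Cmd K) : St K → Prop
  | Sum.inl _ => True
  | Sum.inr (o, T) => (∀ x, o = some x → GC (RR c) x) ∧ ∀ k, (T k).length ≤ D

theorem act_good {D : ℕ} {c₀ : Cmd K} {c : Ctl K} {T : K → List Bool} (h1 : GC (RR c₀) c)
    (h2 : ∀ k, (T k).length ≤ D) (L R : Bool) :
    GC (RR c₀) (act D c T L R).1 ∧ ∀ k, ((act D c T L R).2.1 k).length ≤ D := by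
  cases c with
  | run s =>
    refine ⟨?_, h2⟩
    cases s with
    | inl s => exact (RR_closed c₀ h1).1
    | inr b => trivial
  | ret s =>
    cases L <;> exact ⟨h1, h2⟩
  | push k b s =>
    simp only [act]
    split_ifs with h3
    · refine ⟨h1, fun j => ?_⟩
      by_cases hj : j = k
      · subst hj
        simp only [Function.update_self, List.length_cons]
        omega
      · simp only [Function.update_of_ne hj]
        exact h2 j
    · refine ⟨h1, fun j => ?_⟩
      by_cases hj : j = k
      · subst hj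
        simp only [Function.update_self, List.length_dropLast, List.length_cons]
        exact h2 j
      · simp only [Function.update_of_ne hj]
        exact h2 j
  | pop k s =>
    simp only [act]
    split_ifs with h3 h4
    · exact ⟨h1, h2⟩
    · exact ⟨h1, h2⟩
    · refine ⟨h1, fun j => ?_⟩
      by_cases hj : j = k
      · subst hj
        simp only [Function.update_self, List.length_tail]
        exact (Nat.sub_le _ _).trans (h2 j)
      · simp only [Function.update_of_ne hj]
        exact h2 j
  | test k s =>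
    simp only [act]
    split_ifs with h3 h4
    · exact ⟨(RR_closed c₀ h1).2 none, h2⟩
    · exact ⟨h1, h2⟩
    · exact ⟨(RR_closed c₀ h1).2 _, h2⟩

theorem inc_good {D : ℕ} {c₀ : Cmd K} {s : Option (St K)} (h : ∀ x, s = some x → GS D c₀ x)
    (dir : Bool) : ∀ x, inc D dir s = some x → GC (RR c₀) x := by
  intro x hx
  rcases s with _ | (b | ⟨(_ | c), T⟩)
  · simp [inc] at hx
  · simp [inc] at hx
  · simp [inc] at hx
  · have h1 := h _ rfl
    have h2 := act_good (h1.1 c rfl) h1.2 false false
    unfold inc at hx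
    simp only at hx
    split_ifs at hx with h3
    rw [Option.some.injEq] at hx
    rw [← hx]
    exact h2.1

theorem rule_good {D : ℕ} (hD : 1 ≤ D) {c₀ : Cmd K} {l c r : Option (St K)}
    (hl : ∀ x, l = some x → GS D c₀ x) (hc : ∀ x, c = some x → GS D c₀ x)
    (hr : ∀ x, r = some x → GS D c₀ x) : GS D c₀ (rule D c₀ l c r) := by
  rcases c with _ | (b | ⟨(_ | c), T⟩)
  · trivial
  · refine ⟨fun x hx => ?_, fun k => ?_⟩
    · split_ifs at hx with h
      rw [Option.some.injEq] at hx
      rw [← hx]
      exact Set.mem_insert_of_mem _ (mem_reach c₀ [])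
    · simp only
      split_ifs
      · simpa using hD
      · simp
  · refine ⟨fun x hx => ?_, (hc _ rfl).2⟩
    rw [Option.or_eq_some_iff] at hx
    rcases hx with hx | ⟨_, hx⟩
    · exact inc_good hl true x hx
    · exact inc_good hr false x hx
  · have h1 := hc _ rfl
    have h2 := act_good (h1.1 c rfl) h1.2 l.isNone r.isNone
    refine ⟨fun x hx => ?_, h2.2⟩
    split_ifs at hx with h
    rw [Option.some.injEq] at hx
    rw [← hx]
    exact h2.1

omit [DecidableEq K] [Zero K] in
theorem finite_RC (c : Cmd K) : {s | RC (RR c) s}.Finite := by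
  have h1 : (RR c).Finite := (reach_finite c []).insert _
  have h2 : {s | RC (RR c) s} ⊆ Sum.inl '' RR c ∪ Set.range Sum.inr := by
    rintro (s | b) hs
    · exact Or.inl ⟨s, hs, rfl⟩
    · exact Or.inr ⟨b, rfl⟩
  exact ((h1.image _).union (Set.finite_range _)).subset h2

omit [DecidableEq K] [Zero K] in
theorem finite_GC [Finite K] (c : Cmd K) : {s | GC (RR c) s}.Finite := by
  have h1 : (RR c).Finite := (reach_finite c []).insert _
  have h2 := finite_RC c
  have hK : (Set.univ : Set K).Finite := Set.finite_univ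
  have hB : (Set.univ : Set Bool).Finite := Set.finite_univ
  have h3 : {s | GC (RR c) s} ⊆ Ctl.run '' {s | RC (RR c) s} ∪
      ((fun x : K × Bool × Cont K => Ctl.push x.1 x.2.1 x.2.2) ''
        (Set.univ ×ˢ (Set.univ ×ˢ {s | RC (RR c) s})) ∪
      ((fun x : K × Cont K => Ctl.pop x.1 x.2) '' (Set.univ ×ˢ {s | RC (RR c) s}) ∪
      ((fun x : K × List (Cmd K) => Ctl.test x.1 x.2) '' (Set.univ ×ˢ RR c) ∪
        Ctl.ret '' {s | RC (RR c) s}))) := by
    intro s hs
    cases s with
    | run s => exact Or.inl ⟨s, hs, rfl⟩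
    | push k b s => exact Or.inr (Or.inl ⟨(k, b, s), ⟨trivial, trivial, hs⟩, rfl⟩)
    | pop k s => exact Or.inr (Or.inr (Or.inl ⟨(k, s), ⟨trivial, hs⟩, rfl⟩))
    | test k s => exact Or.inr (Or.inr (Or.inr (Or.inl ⟨(k, s), ⟨trivial, hs⟩, rfl⟩)))
    | ret s => exact Or.inr (Or.inr (Or.inr (Or.inr ⟨s, hs, rfl⟩)))
  exact ((h2.image _).union (((hK.prod (hB.prod h2)).image _).union
    (((hK.prod h2).image _).union (((hK.prod h1).image _).union (h2.image _))))).subset h3

omit [DecidableEq K] [Zero K] in
theorem finite_GS [Finite K] (D : ℕ) (c : Cmd K) : {s | GS D c s}.Finite := by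
  have h1 := finite_GC c
  have h2 : {T : K → List Bool | ∀ k, T k ∈ {l : List Bool | l.length ≤ D}}.Finite :=
    Set.Finite.pi' fun _ => List.finite_length_le Bool D
  have h3 : {o : Option (Ctl K) | ∀ x, o = some x → GC (RR c) x}.Finite := by
    refine ((h1.image some).insert none).subset ?_
    rintro (_ | x) hx
    · exact Set.mem_insert _ _
    · exact Set.mem_insert_of_mem _ ⟨x, hx x rfl, rfl⟩
  have h4 : {s | GS D c s} ⊆ Set.range Sum.inl ∪ Sum.inr ''
      ({o : Option (Ctl K) | ∀ x, o = some x → GC (RR c) x} ×ˢ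
        {T : K → List Bool | ∀ k, T k ∈ {l : List Bool | l.length ≤ D}}) := by
    rintro (b | ⟨o, T⟩) hs
    · exact Or.inl ⟨b, rfl⟩
    · exact Or.inr ⟨(o, T), ⟨hs.1, hs.2⟩, rfl⟩
  exact ((Set.finite_range _).union ((h3.prod h2).image _)).subset h4

end Pool.Agent.V7H59.CA
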