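import Pool.Agent.V7H59.CA.Row

/-!
# A language of an array that needs time `n ^ 2 / log n`
-/

set_option autoImplicit false

namespace Pool.Agent.V7H59.CA

open Pool.Agent.NPC Pool.Agent.V7H59.CT

theorem log_bound (K : ℕ) : ∃ n₀, ∀ n ≥ n₀, K * Nat.log 2 n ≤ n := by
  obtain ⟨m₀, h⟩ := exists_pow_lt K 1
  refine ⟨2 ^ m₀, fun n hn => ?_⟩
  have h0 : n ≠ 0 := by
    have := Nat.pow_pos (n := m₀) (show 0 < 2 by norm_num)
    omega
  have h1 : m₀ ≤ Nat.log 2 n := (Nat.le_log_iff_pow_le (by norm_num) h0).2 hn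
  have h2 := h _ h1
  rw [pow_one] at h2
  exact h2.le.trans (Nat.pow_log_le_self 2 h0)

theorem accepts_left {Q : Type} [Fintype Q] (ι : Bool → Q) (δ : Option Q → Q → Option Q → Q)
    (F : Set Q) {x : List Bool} (h : 0 < x.length) (t : ℕ) :
    (rowAut false ι δ F).accepts x (t + 1) ↔
      ∃ s, s ≤ t ∧ ((step2 δ)^[s] (row0 ι x)) ⟨0, h⟩ ∈ F := by
  have h1 := ((sim_row false ι δ F x (t + 1) 0).1 ⟨le_rfl, h⟩).2
  unfold FlagP at h1
  rw [if_neg (by simp)] at h1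
  unfold CellAut.accepts
  change (((rowAut false ι δ F).step^[t + 1] ((rowAut false ι δ F).start x)) 0).2 = true ↔ _
  rw [h1]
  constructor
  · rintro ⟨u, hu, hu'⟩
    exact ⟨u, by omega, hu'⟩
  · rintro ⟨u, hu, hu'⟩
    exact ⟨u, by omega, hu'⟩

theorem accepts_right {Q : Type} [Fintype Q] (ι : Bool → Q) (δ : Option Q → Q → Option Q → Q)
    (F : Set Q) {x : List Bool} (h : 0 < x.length) (t : ℕ) :
    (rowAut true ι δ F).accepts x (t + x.length) ↔
      ∃ s, s ≤ t ∧ ((step2 δ)^[s] (row0 ι x)) ⟨x.length - 1, Nat.sub_lt h Nat.one_pos⟩ ∈ F := by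
  have h1 := ((sim_row true ι δ F x (t + x.length) 0).1 ⟨le_rfl, h⟩).2
  unfold FlagP at h1
  rw [if_pos rfl] at h1
  unfold CellAut.accepts
  change (((rowAut true ι δ F).step^[t + x.length] ((rowAut true ι δ F).start x)) 0).2 = true ↔ _
  rw [h1]
  constructor
  · rintro ⟨u, hu, hu'⟩
    simp only [Pi.zero_apply, Int.toNat_zero, Nat.add_zero] at hu
    exact ⟨u, by omega, hu'⟩
  · rintro ⟨u, hu, hu'⟩
    exact ⟨u, by simp only [Pi.zero_apply, Int.toNat_zero, Nat.add_zero]; omega, hu'⟩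

/-- **Main theorem on arrays.** -/
theorem array_hard : ∃ L : Set (List Bool), IsLCA L ∧ ∀ T : ℕ → ℕ,
    (∀ k n₀ : ℕ, ∃ n ≥ n₀, k * (T n * Nat.log 2 n) ≤ n ^ 2) →
      ¬ IsLCATime T L ∧ ¬ IsOLCATime T L := by
  obtain ⟨cm, C, f, hf, hr⟩ := lang_run 1 (Cst 1 (2 ^ (1 + 1) * 1))
  obtain ⟨m, init, δ, F, hF⟩ := exists_array _ C f fun x => runS_fin (hr x)
  have hL : ∀ x : List Bool, 0 < x.length →
      (x ∈ {w | ∃ s, ∃ q ∈ F, run init δ (ofB w) s 1 = some q} ↔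
        x ∈ lang 1 (Cst 1 (2 ^ (1 + 1) * 1))) := by
    intro x hx
    have h2 := hF (ofB x)
    rw [toB_ofB] at h2
    have h3 : ofB x ≠ [] := by
      intro h4
      have h5 := length_ofB x
      rw [h4] at h5
      simp at h5
      omega
    rw [hf]
    exact ⟨fun h4 => (h2.1 h4).2, fun h4 => h2.2 ⟨h3, h4⟩⟩
  obtain ⟨n₀, h₀⟩ := lang_hard 1 1
  -- the automata which decide the language fast
  have main : ∀ (T : ℕ → ℕ), (∀ k n₀ : ℕ, ∃ n ≥ n₀, k * (T n * Nat.log 2 n) ≤ n ^ 2) →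
      ∀ M : CellAut 1, ¬ ∀ x : List Bool, 0 < x.length → ∃ t ≤ T x.length + x.length + 1,
        (∀ y : List Bool, y.length = x.length → (M.accepts y t ↔
          y ∈ {w | ∃ s, ∃ q ∈ F, run init δ (ofB w) s 1 = some q})) := by
    intro T hT M hM
    obtain ⟨n₁, h₁⟩ := log_bound (4 * (Nat.log 2 (Fintype.card M.Q) + 1))
    obtain ⟨n, hn, hTn⟩ := hT (2 * (Nat.log 2 (Fintype.card M.Q) + 1))
      (max (max n₀ 1) (max n₁ (Fintype.card M.Q ^ (3 ^ 1 + 2))))
    obtain ⟨hn1, hn2⟩ := max_le_iff.1 hn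
    obtain ⟨hn3, hn4⟩ := max_le_iff.1 hn1
    obtain ⟨hn5, hn6⟩ := max_le_iff.1 hn2
    have hx₀ : (List.replicate n false).length = n := List.length_replicate
    obtain ⟨t, ht, hacc⟩ := hM (List.replicate n false) (by rw [hx₀]; omega)
    rw [hx₀] at ht hacc
    have hb : (t * Nat.log 2 n) ^ 1 * (Nat.log 2 (Fintype.card M.Q) + 1) ≤ 1 * n ^ (1 + 1) := by
      have e1 := h₁ n hn5
      set K := Nat.log 2 (Fintype.card M.Q) + 1 with hK
      set l := Nat.log 2 n with hl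
      rw [pow_one, one_mul]
      have e2 : t * l * K ≤ (T n + 2 * n) * l * K :=
        Nat.mul_le_mul_right _ (Nat.mul_le_mul_right _ (by omega))
      have e3 : n * (4 * K * l) ≤ n * n := Nat.mul_le_mul_left _ e1
      have e4 : 2 * ((T n + 2 * n) * l * K) = 2 * K * (T n * l) + n * (4 * K * l) := by ring
      have e5 : n ^ (1 + 1) = n * n := by ring
      rw [e5]
      have e6 : n ^ 2 = n * n := by ring
      rw [e6] at hTn
      omega
    obtain ⟨x, hx, hne⟩ := h₀ n hn3 M hn6 t hb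
    apply hne
    rw [hacc x hx]
    exact (hL x (by omega)).symm
  refine ⟨_, isLCA_of init δ F, fun T hT => ⟨?_, ?_⟩⟩
  · rintro ⟨Q, hQ, ι, F', δ', h'⟩
    have : Fintype Q := Fintype.ofFinite Q
    refine main T hT (rowAut false ι δ' F') fun x hx => ⟨T x.length + 1, by omega, fun y hy => ?_⟩
    rw [h' y, ← hy]
    have hy0 : 0 < y.length := by omega
    rw [accepts_left ι δ' F' hy0]
    exact ⟨fun h => ⟨hy0, h⟩, fun ⟨_, h⟩ => h⟩
  · rintro ⟨Q, hQ, ι, F', δ', h'⟩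
    have : Fintype Q := Fintype.ofFinite Q
    refine main T hT (rowAut true ι (fun l c _ => δ' l c) F') fun x hx =>
      ⟨T x.length + x.length, by omega, fun y hy => ?_⟩
    rw [h' y, ← hy]
    have hy0 : 0 < y.length := by omega
    rw [accepts_right ι (fun l c _ => δ' l c) F' hy0]
    exact ⟨fun h => ⟨hy0, h⟩, fun ⟨_, h⟩ => h⟩

end Pool.Agent.V7H59.CA
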