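import Pool.Agent.V7H59.CT.Space

/-!
# Linear cellular arrays which simulate programs with bounded stacks

The array holds each stack as the concatenation of short lists in the cells. One cell carries a
head, which moves to the first cell that allows the operation, and back to the first cell.
-/

set_option autoImplicit false

namespace Pool.Agent.V7H59.CA

open Pool.Agent.NPC Pool.Agent.V7H59.CT
open Function (update)

/-- What remains to be done: a list of programs, or an answer. -/
abbrev Cont (K : Type) : Type := List (Cmd K) ⊕ Bool

/-- The states of the head. -/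
inductive Ctl (K : Type) : Type
  | run (s : Cont K) : Ctl K
  | push (k : K) (b : Bool) (s : Cont K) : Ctl K
  | pop (k : K) (s : Cont K) : Ctl K
  | test (k : K) (s : List (Cmd K)) : Ctl K
  | ret (s : Cont K) : Ctl K

variable {K : Type} [DecidableEq K]

/-- The first state for a continuation. -/
def startC [Zero K] : Cont K → Ctl K
  | Sum.inr b => Ctl.run (Sum.inr b)
  | Sum.inl [] => Ctl.test 0 []
  | Sum.inl (Cmd.skip :: l) => Ctl.run (Sum.inl l)
  | Sum.inl (Cmd.push k b :: l) => Ctl.push k b (Sum.inl l)
  | Sum.inl (Cmd.pop k :: l) => Ctl.pop k (Sum.inl l)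
  | Sum.inl (Cmd.seq a b :: l) => Ctl.run (Sum.inl (a :: b :: l))
  | Sum.inl (Cmd.cases k a b c :: l) => Ctl.test k (Cmd.cases k a b c :: l)
  | Sum.inl (Cmd.loop k a :: l) => Ctl.test k (Cmd.loop k a :: l)

/-- The continuation after a test. -/
def nxt : List (Cmd K) → Option Bool → Cont K
  | [], o => Sum.inr (o == some true)
  | Cmd.skip :: l, _ => Sum.inl l
  | Cmd.push _ _ :: l, _ => Sum.inl l
  | Cmd.pop _ :: l, _ => Sum.inl l
  | Cmd.seq _ _ :: l, _ => Sum.inl l
  | Cmd.cases _ a _ _ :: l, none => Sum.inl (a :: l)
  | Cmd.cases _ _ b _ :: l, some false => Sum.inl (b :: l)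
  | Cmd.cases _ _ _ c :: l, some true => Sum.inl (c :: l)
  | Cmd.loop _ _ :: l, none => Sum.inl l
  | Cmd.loop k a :: l, some _ => Sum.inl (a :: Cmd.loop k a :: l)

/-- The action of the head on a cell; the flags tell whether the cell is the first or the last one.
The third component is the move: `none` for no move, `some false` to the left, `some true` to the
right. -/
def act [Zero K] (D : ℕ) : Ctl K → (K → List Bool) → Bool → Bool →
    Ctl K × (K → List Bool) × Option Bool
  | Ctl.run s, T, _, _ => (startC s, T, none)
  | Ctl.ret s, T, L, _ => if L = true then (Ctl.run s, T, none) else (Ctl.ret s, T, some false)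
  | Ctl.push k b s, T, _, _ =>
    if (T k).length < D then (Ctl.ret s, update T k (b :: T k), none)
    else (Ctl.push k ((b :: T k).getLast (List.cons_ne_nil _ _)) s,
      update T k (b :: T k).dropLast, some true)
  | Ctl.pop k s, T, _, R =>
    if T k = [] then (if R = true then (Ctl.ret s, T, none) else (Ctl.pop k s, T, some true))
    else (Ctl.ret s, update T k (T k).tail, none)
  | Ctl.test k s, T, _, R =>
    if T k = [] then
      (if R = true then (Ctl.ret (nxt s none), T, none) else (Ctl.test k s, T, some true))
    else (Ctl.ret (nxt s (T k).head?), T, none)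

/-- The states of the cells: an input bit, or a head or no head and the contents. -/
abbrev St (K : Type) : Type := Bool ⊕ (Option (Ctl K) × (K → List Bool))

/-- The head which comes from a neighbour. -/
def inc [Zero K] (D : ℕ) (dir : Bool) : Option (St K) → Option (Ctl K)
  | some (Sum.inr (some c, T)) =>
    if (act D c T false false).2.2 = some dir then some (act D c T false false).1 else none
  | some (Sum.inr (none, _)) => none
  | some (Sum.inl _) => none
  | none => none

/-- The rule of the array. -/
def rule [Zero K] (D : ℕ) (c₀ : Cmd K) (l c r : Option (St K)) : St K :=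
  match c with
  | none => Sum.inl false
  | some (Sum.inl b) =>
    Sum.inr (if l.isNone = true then some (Ctl.run (Sum.inl [c₀])) else none,
      fun k => if k = 0 then [b] else [])
  | some (Sum.inr (some c, T)) =>
    Sum.inr (if (act D c T l.isNone r.isNone).2.2 = none then
      some (act D c T l.isNone r.isNone).1 else none, (act D c T l.isNone r.isNone).2.1)
  | some (Sum.inr (none, T)) => Sum.inr ((inc D true l).or (inc D false r), T)

/-- One step of an array with `n` cells. -/
def stepA {S : Type} (δ : Option S → Option S → Option S → S) (n : ℕ) (cfg : ℕ → Option S) :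
    ℕ → Option S :=
  fun i => if 1 ≤ i ∧ i ≤ n then some (δ (cfg (i - 1)) (cfg i) (cfg (i + 1))) else none

/-- The configuration with a head at `p`. -/
def emb (n p : ℕ) (c : Ctl K) (T : ℕ → K → List Bool) : ℕ → Option (St K) :=
  fun i => if 1 ≤ i ∧ i ≤ n then some (Sum.inr (if i = p then some c else none, T i)) else none

/-- The new position. -/
def mvp (p : ℕ) : Option Bool → ℕ
  | none => p
  | some false => p - 1
  | some true => p + 1

variable [Zero K]

theorem act_right {D : ℕ} {c : Ctl K} {T : K → List Bool} (L : Bool) :
    ((act D c T L false).2.2 = some true ↔ (act D c T false false).2.2 = some true) ∧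
    ((act D c T L false).2.2 = some true → act D c T false false = act D c T L false) := by
  cases c with
  | ret s => cases L <;> simp [act]
  | _ => exact ⟨Iff.rfl, fun _ => rfl⟩

theorem act_left {D : ℕ} {c : Ctl K} {T : K → List Bool} (R : Bool) :
    ((act D c T false R).2.2 = some false ↔ (act D c T false false).2.2 = some false) ∧
    ((act D c T false R).2.2 = some false → act D c T false false = act D c T false R) := by
  cases c with
  | run s => exact ⟨Iff.rfl, fun _ => rfl⟩
  | ret s => exact ⟨Iff.rfl, fun _ => rfl⟩
  | push k b s => exact ⟨Iff.rfl, fun _ => rfl⟩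
  | pop k s =>
    by_cases h : T k = [] <;> cases R <;> simp [act, h]
  | test k s =>
    by_cases h : T k = [] <;> cases R <;> simp [act, h]

/-- The array simulates the head. -/
theorem step_emb {D n p : ℕ} {c₀ : Cmd K} {c : Ctl K} {T : ℕ → K → List Bool} (h1 : 1 ≤ p)
    (h2 : p ≤ n) {a : Ctl K × (K → List Bool) × Option Bool}
    (ha : act D c (T p) (decide (p = 1)) (decide (p = n)) = a) :
    stepA (rule D c₀) n (emb n p c T) = emb n (mvp p a.2.2) a.1 (update T p a.2.1) := by
  have hl : (emb n p c T (p - 1)).isNone = decide (p = 1) := by
    unfold emb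
    by_cases h : p = 1
    · subst h; simp
    · rw [if_pos (by omega)]
      simp [h]
  have hr : (emb n p c T (p + 1)).isNone = decide (p = n) := by
    unfold emb
    by_cases h : p = n
    · subst h; simp
    · rw [if_pos (by omega)]
      simp [h]
  have hno : ∀ j, j ≠ p → ∀ dir, inc D dir (emb n p c T j) = none := by
    intro j hj dir
    unfold emb
    by_cases h : 1 ≤ j ∧ j ≤ n
    · rw [if_pos h, if_neg hj]
      rfl
    · rw [if_neg h]
      rfl
  have hp : emb n p c T p = some (Sum.inr (some c, T p)) := by
    unfold emb
    rw [if_pos ⟨h1, h2⟩, if_pos rfl]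
  funext i
  unfold stepA
  by_cases hi : 1 ≤ i ∧ i ≤ n
  · rw [if_pos hi]
    have e2 : emb n (mvp p a.2.2) a.1 (update T p a.2.1) i =
        some (Sum.inr (if i = mvp p a.2.2 then some a.1 else none, update T p a.2.1 i)) := by
      conv_lhs => unfold emb
      rw [if_pos hi]
    rw [e2]
    congr 1
    by_cases hip : i = p
    · subst hip
      rw [hp]
      unfold rule
      simp only [hl, hr, ha]
      congr 2
      · obtain ⟨a1, a2, a3⟩ := a
        rcases a3 with _ | _ | _
        · simp [mvp]
        · change (if (some false : Option Bool) = none then some a1 else none) =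
            if i = i - 1 then some a1 else none
          rw [if_neg (by simp), if_neg (by omega)]
        · change (if (some true : Option Bool) = none then some a1 else none) =
            if i = i + 1 then some a1 else none
          rw [if_neg (by simp), if_neg (by omega)]
      · rw [Function.update_self]
    · have e3 : emb n p c T i = some (Sum.inr (none, T i)) := by
        unfold emb
        rw [if_pos hi, if_neg hip]
      rw [e3, Function.update_of_ne hip]
      unfold rule
      simp only
      congr 2
      by_cases c1 : i = p + 1
      · subst c1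
        have hpn : decide (p = n) = false := decide_eq_false (by omega)
        rw [hpn] at ha
        obtain ⟨h3, h4⟩ := act_right (D := D) (c := c) (T := T p) (decide (p = 1))
        rw [ha] at h3 h4
        rw [Nat.add_sub_cancel, hno (p + 1 + 1) (by omega), Option.or_none, hp]
        unfold inc
        simp only
        by_cases h5 : a.2.2 = some true
        · rw [if_pos (h3.1 h5), h4 h5, h5, if_pos (by simp [mvp])]
        · rw [if_neg (fun h => h5 (h3.2 h)), if_neg]
          rcases hm : a.2.2 with _ | _ | _
          · simp [mvp]
          · simp only [mvp]; omega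
          · exact absurd hm h5
      · by_cases c2 : i + 1 = p
        · have hp1 : decide (p = 1) = false := decide_eq_false (by omega)
          rw [hp1] at ha
          obtain ⟨h3, h4⟩ := act_left (D := D) (c := c) (T := T p) (decide (p = n))
          rw [ha] at h3 h4
          rw [hno (i - 1) (by omega), Option.none_or, c2, hp]
          unfold inc
          simp only
          by_cases h5 : a.2.2 = some false
          · rw [if_pos (h3.1 h5), h4 h5, h5, if_pos (by simp only [mvp]; omega)]
          · rw [if_neg (fun h => h5 (h3.2 h)), if_neg]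
            rcases hm : a.2.2 with _ | _ | _
            · simp only [mvp]; omega
            · exact absurd hm h5
            · simp only [mvp]; omega
        · rw [hno (i - 1) (by omega), hno (i + 1) (by omega), Option.none_or, if_neg]
          rcases a.2.2 with _ | _ | _ <;> simp only [mvp] <;> omega
  · rw [if_neg hi]
    unfold emb
    rw [if_neg hi]

/-- One step of the head, within the array. -/
def HS (D n : ℕ) (x y : ℕ × Ctl K × (ℕ → K → List Bool)) : Prop :=
  1 ≤ x.1 ∧ x.1 ≤ n ∧ 1 ≤ y.1 ∧ y.1 ≤ n ∧
    ∃ a, act D x.2.1 (x.2.2 x.1) (decide (x.1 = 1)) (decide (x.1 = n)) = a ∧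
      y = (mvp x.1 a.2.2, a.1, update x.2.2 x.1 a.2.1)

/-- The runs of the head. -/
def Rch (D n : ℕ) : (ℕ × Ctl K × (ℕ → K → List Bool)) → (ℕ × Ctl K × (ℕ → K → List Bool)) → Prop :=
  Relation.ReflTransGen (HS D n)

theorem Rch.steps {D n : ℕ} {x y : ℕ × Ctl K × (ℕ → K → List Bool)} (h : Rch D n x y)
    (c₀ : Cmd K) :
    ∃ t, (stepA (rule D c₀) n)^[t] (emb n x.1 x.2.1 x.2.2) = emb n y.1 y.2.1 y.2.2 := by
  induction h with
  | refl => exact ⟨0, rfl⟩
  | @tail y z _ h ih =>
    obtain ⟨t, ht⟩ := ih
    obtain ⟨h1, h2, _, _, a, ha, hz⟩ := h
    refine ⟨t + 1, ?_⟩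
    rw [Function.iterate_succ_apply', ht, step_emb h1 h2 ha, hz]

theorem HS.mk' {D n p : ℕ} {c : Ctl K} {T : ℕ → K → List Bool}
    {a : Ctl K × (K → List Bool) × Option Bool} (h1 : 1 ≤ p) (h2 : p ≤ n)
    (ha : act D c (T p) (decide (p = 1)) (decide (p = n)) = a) (h3 : 1 ≤ mvp p a.2.2)
    (h4 : mvp p a.2.2 ≤ n) : HS D n (p, c, T) (mvp p a.2.2, a.1, update T p a.2.1) :=
  ⟨h1, h2, h3, h4, a, ha, rfl⟩

/-- The concatenation of lists. -/
def cat (F : ℕ → List Bool) : ℕ → ℕ → List Bool
  | _, 0 => []
  | p, m + 1 => F p ++ cat F (p + 1) m

theorem cat_congr {F G : ℕ → List Bool} {p m : ℕ} (h : ∀ i, p ≤ i → F i = G i) :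
    cat F p m = cat G p m := by
  induction m generalizing p with
  | zero => rfl
  | succ m ih => rw [cat, cat, h p le_rfl, ih fun i hi => h i (by omega)]

theorem ret_run {D n : ℕ} (s : Cont K) (T : ℕ → K → List Bool) (p : ℕ) (h1 : 1 ≤ p)
    (h2 : p ≤ n) : Rch D n (p, Ctl.ret s, T) (1, Ctl.run s, T) := by
  induction p with
  | zero => omega
  | succ p ih =>
    rcases Nat.eq_zero_or_pos p with h | h
    · subst h
      have := HS.mk' (D := D) (c := Ctl.ret s) (T := T) (n := n) (p := 1) (a := (Ctl.run s, T 1, none))
        le_rfl h2 (by simp [act]) le_rfl h2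
      simp only [mvp, Function.update_eq_self] at this
      exact Relation.ReflTransGen.single this
    · have := HS.mk' (D := D) (c := Ctl.ret s) (T := T) (n := n) (p := p + 1)
        (a := (Ctl.ret s, T (p + 1), some false)) h1 h2
        (by
          have : decide (p + 1 = 1) = false := decide_eq_false (by omega)
          simp only [act, this]
          rfl) (by simp only [mvp]; omega) (by simp only [mvp]; omega)
      simp only [mvp, Function.update_eq_self, Nat.add_sub_cancel] at this
      exact Relation.ReflTransGen.head this (ih h (by omega))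

end Pool.Agent.V7H59.CA
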