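import Pool.Agent.V7H59.CA.Smith

/-!
# Rows of cells, two-way and one-way
-/

set_option autoImplicit false

namespace Pool.Agent.V7H59.CA

open Pool.Agent.NPC Pool.Agent.V7H59.CT

variable {Q : Type}

/-- The left neighbour of the cell `i` in a row of `n` cells, `none` (the boundary) for the first
cell. -/
def nbL {n : ℕ} (c : Fin n → Q) (i : Fin n) : Option Q :=
  if (i : ℕ) = 0 then none else some (c ⟨(i : ℕ) - 1, lt_of_le_of_lt (Nat.sub_le _ _) i.isLt⟩)

/-- The right neighbour of the cell `i` in a row of `n` cells, `none` (the boundary) for the last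
cell. -/
def nbR {n : ℕ} (c : Fin n → Q) (i : Fin n) : Option Q :=
  if h : (i : ℕ) + 1 < n then some (c ⟨(i : ℕ) + 1, h⟩) else none

/-- One step of a two-way array. -/
def step2 (δ : Option Q → Q → Option Q → Q) {n : ℕ} (c : Fin n → Q) : Fin n → Q :=
  fun i => δ (nbL c i) (c i) (nbR c i)

/-- One step of a one-way array. -/
def step1 (δ : Option Q → Q → Q) {n : ℕ} (c : Fin n → Q) : Fin n → Q := fun i => δ (nbL c i) (c i)

/-- The first configuration. -/
def row0 (ι : Bool → Q) (w : List Bool) : Fin w.length → Q := fun i => ι (w.get i)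

/-- `L` is accepted by a two-way linear cellular array: some finite-state array has a leftmost cell
that is in an accepting state at some time if and only if the input is in `L`. -/
def IsLCA (L : Set (List Bool)) : Prop :=
  ∃ (Q : Type) (_ : Finite Q) (ι : Bool → Q) (F : Set Q) (δ : Option Q → Q → Option Q → Q),
    Function.Injective ι ∧ ∀ w : List Bool, w ∈ L ↔ ∃ (h : 0 < w.length) (s : ℕ),
      ((step2 δ)^[s] (row0 ι w)) ⟨0, h⟩ ∈ F

/-- `L` is the set of the words accepted by some two-way array at its leftmost cell at some time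
`s ≤ T n`, where `n` is the length of the word. -/
def IsLCATime (T : ℕ → ℕ) (L : Set (List Bool)) : Prop :=
  ∃ (Q : Type) (_ : Finite Q) (ι : Bool → Q) (F : Set Q) (δ : Option Q → Q → Option Q → Q),
    ∀ w : List Bool, w ∈ L ↔ ∃ (h : 0 < w.length) (s : ℕ), s ≤ T w.length ∧
      ((step2 δ)^[s] (row0 ι w)) ⟨0, h⟩ ∈ F

/-- `L` is the set of the words accepted by some one-way array at its rightmost cell at some time
`s ≤ T n`, where `n` is the length of the word. -/
def IsOLCATime (T : ℕ → ℕ) (L : Set (List Bool)) : Prop :=
  ∃ (Q : Type) (_ : Finite Q) (ι : Bool → Q) (F : Set Q) (δ : Option Q → Q → Q),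
    ∀ w : List Bool, w ∈ L ↔ ∃ (h : 0 < w.length) (s : ℕ), s ≤ T w.length ∧
      ((step1 δ)^[s] (row0 ι w)) ⟨w.length - 1, Nat.sub_lt h Nat.one_pos⟩ ∈ F

/-- A row as a function on the natural numbers; the cells are `1`, …, `n`, the value is `none`
elsewhere. -/
def embR {n : ℕ} (c : Fin n → Q) : ℕ → Option Q :=
  fun i => if h : 1 ≤ i ∧ i ≤ n then some (c ⟨i - 1, by omega⟩) else none

theorem embR_sub {n : ℕ} (c : Fin n → Q) (i : Fin n) : embR c (i : ℕ) = nbL c i := by
  unfold embR nbL
  by_cases h : (i : ℕ) = 0
  · rw [if_pos h, dif_neg (by omega)]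
  · rw [if_neg h, dif_pos ⟨by omega, i.isLt.le⟩]

theorem embR_add {n : ℕ} (c : Fin n → Q) (i : Fin n) : embR c ((i : ℕ) + 1 + 1) = nbR c i := by
  unfold embR nbR
  by_cases h : (i : ℕ) + 1 < n
  · rw [dif_pos h, dif_pos ⟨by omega, by omega⟩]
    congr 2
  · rw [dif_neg h, dif_neg (by omega)]

theorem embR_self {n : ℕ} (c : Fin n → Q) (i : Fin n) : embR c ((i : ℕ) + 1) = some (c i) := by
  unfold embR
  rw [dif_pos ⟨by omega, by have := i.isLt; omega⟩]
  rfl

/-- The rule of an array, applied to rows of pairs of a state and a bit. -/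
def liftB {m : ℕ} (δ : Option (Fin m) → Option (Fin m) → Option (Fin m) → Fin m) :
    Option (Fin m × Bool) → Fin m × Bool → Option (Fin m × Bool) → Fin m × Bool :=
  fun l c r => (δ (l.map Prod.fst) (some c.1) (r.map Prod.fst), c.2)

theorem stepA_liftB {m n : ℕ} (δ : Option (Fin m) → Option (Fin m) → Option (Fin m) → Fin m)
    (c : Fin n → Fin m × Bool) :
    stepA δ n (fun i => (embR c i).map Prod.fst) =
      fun i => (embR (step2 (liftB δ) c) i).map Prod.fst := by
  funext i
  unfold stepA
  by_cases h : 1 ≤ i ∧ i ≤ n
  · rw [if_pos h]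
    obtain ⟨j, rfl⟩ : ∃ j : Fin n, i = (j : ℕ) + 1 := ⟨⟨i - 1, by omega⟩, by simp; omega⟩
    beta_reduce
    rw [embR_self, embR_self, embR_add, Nat.add_sub_cancel, embR_sub]
    rfl
  · rw [if_neg h]
    unfold embR
    rw [dif_neg h]
    rfl

theorem isLCA_of {m : ℕ} (init : Fin 2 → Fin m)
    (δ : Option (Fin m) → Option (Fin m) → Option (Fin m) → Fin m) (F : Finset (Fin m)) :
    IsLCA {w | ∃ s, ∃ q ∈ F, run init δ (ofB w) s 1 = some q} := by
  refine ⟨Fin m × Bool, inferInstance, fun b => (init (if b then 1 else 0), b), {q | q.1 ∈ F},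
    liftB δ, fun a b h => (Prod.ext_iff.1 h).2, fun w => ?_⟩
  have key : ∀ s, run init δ (ofB w) s = fun i => (embR ((step2 (liftB δ))^[s]
      (row0 (fun b => (init (if b then 1 else 0), b)) w)) i).map Prod.fst := by
    intro s
    induction s with
    | zero =>
      funext i
      unfold run embR row0 ofB
      simp only [Function.iterate_zero, id]
      by_cases h1 : 1 ≤ i
      · rw [if_pos h1, List.getElem?_map]
        by_cases h2 : i ≤ w.length
        · rw [dif_pos ⟨h1, h2⟩, List.getElem?_eq_getElem (show i - 1 < w.length by omega)]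
          rfl
        · rw [dif_neg (fun h => h2 h.2), List.getElem?_eq_none (by omega)]
          rfl
      · rw [if_neg h1, dif_neg (fun h => h1 h.1)]
        rfl
    | succ s ih =>
      rw [run_succ, ih, length_ofB, stepA_liftB, Function.iterate_succ_apply']
  constructor
  · rintro ⟨s, q, hq, h⟩
    rw [key s] at h
    have h0 : 0 < w.length := by
      by_contra h1
      unfold embR at h
      beta_reduce at h
      rw [dif_neg (by omega)] at h
      exact absurd h (by simp)
    refine ⟨h0, s, ?_⟩
    have e := embR_self ((step2 (liftB δ))^[s]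
      (row0 (fun b => (init (if b then 1 else 0), b)) w)) ⟨0, h0⟩
    simp only at e h
    rw [Nat.zero_add] at e
    rw [e, Option.map_some, Option.some.injEq] at h
    change _ ∈ F
    rw [h]
    exact hq
  · rintro ⟨h0, s, h⟩
    refine ⟨s, _, h, ?_⟩
    rw [key s]
    have e := embR_self ((step2 (liftB δ))^[s]
      (row0 (fun b => (init (if b then 1 else 0), b)) w)) ⟨0, h0⟩
    simp only at e ⊢
    rw [Nat.zero_add] at e
    rw [e]
    rfl

/-- A proposition as a bit. -/
noncomputable def flg (P : Prop) : Bool := @decide P (Classical.propDecidable P)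

theorem flg_iff {P : Prop} : flg P = true ↔ P := by
  exact @decide_eq_true_iff P (Classical.propDecidable P)

/-- The new state of a cell, given the old states of the cell and its neighbours. -/
noncomputable def newSt (R : Bool) (δ : Option Q → Q → Option Q → Q) (F : Set Q)
    (l c r : Option Q × Bool) : Option Q × Bool :=
  match c.1 with
  | none => (none, false)
  | some q => (some (δ l.1 q r.1),
      flg (c.2 = true ∨ (R = true ∧ r.2 = true) ∨ (q ∈ F ∧ (R = true → r.1 = none))))

/-- The automaton on the line which simulates a two-way array. The flag of a cell tells that the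
cell, or (if `R = true`) the last cell, early enough, has been in an accepting state. -/
noncomputable def rowAut (R : Bool) (ι : Bool → Q) (δ : Option Q → Q → Option Q → Q) (F : Set Q)
    [Fintype Q] : CellAut 1 where
  Q := Option Q × Bool
  fin := inferInstance
  rule nb := newSt R δ F (nb fun _ => 0) (nb fun _ => 1) (nb fun _ => 2)
  input b := (some (ι b), false)
  blank := (none, false)
  acc := {q | q.2 = true}

/-- The time when the flag is set. -/
def FlagP (R : Bool) (F : Set Q) {n : ℕ} (f : ℕ → Fin n → Q) (s : ℕ) (i : Fin n) : Prop :=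
  if R = true then ∃ u, u + n ≤ s + i ∧ f u ⟨n - 1, by have := i.isLt; omega⟩ ∈ F
  else ∃ u, u < s ∧ f u i ∈ F

theorem sim_row (R : Bool) (ι : Bool → Q) (δ : Option Q → Q → Option Q → Q) (F : Set Q)
    [Fintype Q] (w : List Bool) (s : ℕ) : ∀ z : Fin 1 → ℤ,
      (∀ h : 0 ≤ z 0 ∧ (z 0).toNat < w.length,
        ((((rowAut R ι δ F).step^[s] ((rowAut R ι δ F).start w)) z).1 =
          some ((step2 δ)^[s] (row0 ι w) ⟨(z 0).toNat, h.2⟩) ∧
        ((((rowAut R ι δ F).step^[s] ((rowAut R ι δ F).start w)) z).2 = true ↔
          FlagP R F (fun u => (step2 δ)^[u] (row0 ι w)) s ⟨(z 0).toNat, h.2⟩))) ∧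
      (¬ (0 ≤ z 0 ∧ (z 0).toNat < w.length) →
        ((rowAut R ι δ F).step^[s] ((rowAut R ι δ F).start w)) z = (none, false)) := by
  induction s with
  | zero =>
    intro z
    rw [Function.iterate_zero, id]
    unfold CellAut.start
    by_cases hz : 0 ≤ z 0
    · rw [if_pos ⟨fun i hi => absurd (Subsingleton.elim i 0) hi, hz⟩]
      refine ⟨fun h => ?_, fun h => ?_⟩
      · rw [List.getElem?_eq_getElem h.2]
        refine ⟨rfl, ?_⟩
        constructor
        · intro h1
          exact absurd h1 (by simp [rowAut])
        · intro h1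
          exfalso
          unfold FlagP at h1
          split_ifs at h1
          · obtain ⟨u, hu, _⟩ := h1
            simp only at hu
            omega
          · obtain ⟨u, hu, _⟩ := h1
            omega
      · rw [List.getElem?_eq_none (by omega)]
        rfl
    · rw [if_neg (fun h => hz h.2)]
      exact ⟨fun h => absurd h.1 hz, fun _ => rfl⟩
  | succ s ih =>
    intro z
    rw [Function.iterate_succ_apply']
    set cf := (rowAut R ι δ F).step^[s] ((rowAut R ι δ F).start w) with hcf
    set f : ℕ → Fin w.length → Q := fun u => (step2 δ)^[u] (row0 ι w) with hf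
    have z1 : (fun i => z i + (((1 : Fin 3) : ℕ) : ℤ) - 1) = z := by
      funext i
      simp
    have hs : (rowAut R ι δ F).step cf z = newSt R δ F
        (cf fun i => z i + (((0 : Fin 3) : ℕ) : ℤ) - 1)
        (cf fun i => z i + (((1 : Fin 3) : ℕ) : ℤ) - 1)
        (cf fun i => z i + (((2 : Fin 3) : ℕ) : ℤ) - 1) := rfl
    rw [z1] at hs
    set zl : Fin 1 → ℤ := fun i => z i + (((0 : Fin 3) : ℕ) : ℤ) - 1 with hzl
    set zr : Fin 1 → ℤ := fun i => z i + (((2 : Fin 3) : ℕ) : ℤ) - 1 with hzr
    have z0 : zl 0 = z 0 - 1 := by
      rw [hzl]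
      simp
    have z2 : zr 0 = z 0 + 1 := by
      rw [hzr]
      simp
      ring
    have i0 := ih zl
    have i1 := ih z
    have i2 := ih zr
    rw [hs]
    refine ⟨fun h => ?_, fun h => ?_⟩
    · have c1 := (i1.1 h).1
      have c2 := (i1.1 h).2
      have hl : (cf zl).1 = nbL (f s) ⟨(z 0).toNat, h.2⟩ := by
        unfold nbL
        split_ifs with h1
        · rw [i0.2 (by
            simp only at h1
            omega)]
        · simp only at h1
          have h2 : 0 ≤ zl 0 ∧ (zl 0).toNat < w.length := by omega
          rw [(i0.1 h2).1]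
          exact congrArg (fun j => some (f s j)) (Fin.ext (by simp only; omega))
      have hr : (cf zr).1 = nbR (f s) ⟨(z 0).toNat, h.2⟩ := by
        unfold nbR
        split_ifs with h1
        · simp only at h1
          have h2 : 0 ≤ zr 0 ∧ (zr 0).toNat < w.length := by omega
          rw [(i2.1 h2).1]
          exact congrArg (fun j => some (f s j)) (Fin.ext (by simp only; omega))
        · rw [i2.2 (by
            simp only at h1
            omega)]
      unfold newSt
      rw [c1]
      simp only
      refine ⟨?_, ?_⟩
      · rw [hl, hr, Function.iterate_succ_apply']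
        rfl
      · rw [flg_iff, c2]
        by_cases hR : R = true
        · have key : ((cf zr).2 = true ∧ (z 0).toNat + 1 < w.length ∨
              (z 0).toNat + 1 = w.length ∧ f s ⟨(z 0).toNat, h.2⟩ ∈ F) ↔
              ((cf zr).2 = true ∨ (f s ⟨(z 0).toNat, h.2⟩ ∈ F ∧ (cf zr).1 = none)) := by
            rcases Nat.lt_or_ge ((z 0).toNat + 1) w.length with h1 | h1
            · have h2 : 0 ≤ zr 0 ∧ (zr 0).toNat < w.length := by omega
              rw [(i2.1 h2).1]
              simp [h1, h1.ne]
            · have h2 : ¬ (0 ≤ zr 0 ∧ (zr 0).toNat < w.length) := by omega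
              rw [i2.2 h2]
              have h3 : (z 0).toNat + 1 = w.length := by omega
              simp [h3]
          simp only [hR, true_and, forall_const]
          change _ ∨ (cf zr).2 = true ∨ (f s ⟨(z 0).toNat, h.2⟩ ∈ F ∧ (cf zr).1 = none) ↔ _
          rw [← key]
          unfold FlagP
          rw [if_pos rfl, if_pos rfl]
          constructor
          · rintro (⟨u, hu, hu'⟩ | ⟨h1, h2⟩ | ⟨h1, h2⟩)
            · exact ⟨u, by simp only at hu ⊢; omega, hu'⟩
            · have h3 : 0 ≤ zr 0 ∧ (zr 0).toNat < w.length := by omega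
              have h4 := ((i2.1 h3).2).1 h1
              unfold FlagP at h4
              rw [if_pos hR] at h4
              obtain ⟨u, hu, hu'⟩ := h4
              exact ⟨u, by simp only at hu ⊢; omega, hu'⟩
            · refine ⟨s, by simp only; omega, ?_⟩
              have h3 : (⟨w.length - 1, by omega⟩ : Fin w.length) = ⟨(z 0).toNat, h.2⟩ :=
                Fin.ext (by simp only; omega)
              rw [h3]
              exact h2
          · rintro ⟨u, hu, hu'⟩
            simp only at hu
            rcases Nat.lt_or_ge (s + (z 0).toNat) (u + w.length) with h1 | h1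
            · right
              rcases Nat.lt_or_ge ((z 0).toNat + 1) w.length with h2 | h2
              · left
                refine ⟨?_, h2⟩
                have h3 : 0 ≤ zr 0 ∧ (zr 0).toNat < w.length := by omega
                refine ((i2.1 h3).2).2 ?_
                unfold FlagP
                rw [if_pos hR]
                exact ⟨u, by simp only; omega, hu'⟩
              · right
                refine ⟨by omega, ?_⟩
                have h3 : (⟨w.length - 1, by omega⟩ : Fin w.length) = ⟨(z 0).toNat, h.2⟩ :=
                  Fin.ext (by simp only; omega)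
                have h4 : u = s := by omega
                rw [h4, h3] at hu'
                exact hu'
            · left
              exact ⟨u, by simp only; omega, hu'⟩
        · unfold FlagP
          rw [if_neg hR, if_neg hR]
          constructor
          · rintro (⟨u, hu, hu'⟩ | ⟨h1, _⟩ | ⟨h1, _⟩)
            · exact ⟨u, by omega, hu'⟩
            · exact absurd h1 hR
            · exact ⟨s, by omega, h1⟩
          · rintro ⟨u, hu, hu'⟩
            rcases Nat.lt_or_ge u s with h1 | h1
            · exact Or.inl ⟨u, h1, hu'⟩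
            · have h2 : u = s := by omega
              rw [h2] at hu'
              exact Or.inr (Or.inr ⟨hu', fun h => absurd h hR⟩)
    · unfold newSt
      rw [i1.2 h]

end Pool.Agent.V7H59.CA
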