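import Pool.Agent.V7H59.CA.Head

/-!
# The head simulates programs
-/

set_option autoImplicit false

namespace Pool.Agent.V7H59.CA

open Pool.Agent.NPC Pool.Agent.V7H59.CT
open Function (update)

variable {K : Type} [DecidableEq K] [Zero K]

theorem push_run {D n : ℕ} (k : K) (s : Cont K) (m : ℕ) : ∀ (p : ℕ) (b : Bool)
    (T : ℕ → K → List Bool), 1 ≤ p → p + m = n + 1 → (∀ i, (T i k).length ≤ D) →
    (cat (fun i => T i k) p m).length < D * m →
    ∃ T', Rch D n (p, Ctl.push k b s, T) (1, Ctl.run s, T') ∧ (∀ i < p, T' i = T i) ∧
      (∀ i j, j ≠ k → T' i j = T i j) ∧ (∀ i, (T' i k).length ≤ D) ∧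
      cat (fun i => T' i k) p m = b :: cat (fun i => T i k) p m := by
  induction m with
  | zero => intro p b T _ _ _ h; rw [Nat.mul_zero] at h; omega
  | succ m ih =>
    intro p b T h1 h2 h3 h4
    have hpn : p ≤ n := by omega
    have h5 := h3 p
    rw [cat, List.length_append] at h4
    by_cases h6 : (T p k).length < D
    · have hs := HS.mk' (D := D) (c := Ctl.push k b s) (T := T) (n := n) (p := p)
        (a := (Ctl.ret s, update (T p) k (b :: T p k), none)) h1 hpn
        (by simp only [act]; rw [if_pos h6]) h1 hpn
      simp only [mvp] at hs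
      refine ⟨_, Relation.ReflTransGen.head hs (ret_run s _ p h1 hpn), ?_, ?_, ?_, ?_⟩
      · intro i hi
        rw [Function.update_of_ne (by omega)]
      · intro i j hj
        by_cases hip : i = p
        · subst hip
          rw [Function.update_self, Function.update_of_ne hj]
        · rw [Function.update_of_ne hip]
      · intro i
        by_cases hip : i = p
        · subst hip
          rw [Function.update_self, Function.update_self, List.length_cons]
          omega
        · rw [Function.update_of_ne hip]
          exact h3 i
      · rw [cat, cat, Function.update_self, Function.update_self, List.cons_append]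
        congr 2
        refine cat_congr fun i hi => ?_
        rw [Function.update_of_ne (by omega)]
    · have h7 : (T p k).length = D := by omega
      have hD : 0 < D := by
        rcases Nat.eq_zero_or_pos D with h | h
        · rw [h] at h4; omega
        · exact h
      have hm : 0 < m := by
        rcases Nat.eq_zero_or_pos m with h | h
        · subst h
          rw [cat] at h4
          simp only [List.length_nil] at h4
          omega
        · exact h
      set e := (b :: T p k).getLast (List.cons_ne_nil _ _) with he
      have hs := HS.mk' (D := D) (c := Ctl.push k b s) (T := T) (n := n) (p := p)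
        (a := (Ctl.push k e s, update (T p) k (b :: T p k).dropLast, some true)) h1 hpn
        (by simp only [act]; rw [if_neg h6]) (by simp only [mvp]; omega)
        (by simp only [mvp]; omega)
      simp only [mvp] at hs
      set T1 := update T p (update (T p) k (b :: T p k).dropLast) with hT1
      have hT1p : T1 p k = (b :: T p k).dropLast := by
        rw [hT1, Function.update_self, Function.update_self]
      have hT1o : ∀ i, i ≠ p → T1 i = T i := fun i hi => by rw [hT1, Function.update_of_ne hi]
      have hcat : cat (fun i => T1 i k) (p + 1) m = cat (fun i => T i k) (p + 1) m :=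
        cat_congr fun i hi => by rw [hT1o i (by omega)]
      have hlen1 : ∀ i, (T1 i k).length ≤ D := by
        intro i
        by_cases hip : i = p
        · rw [hip, hT1p, List.length_dropLast, List.length_cons]
          omega
        · rw [hT1o i hip]
          exact h3 i
      obtain ⟨T', r1, r2, r3, r4, r5⟩ := ih (p + 1) e T1 (by omega) (by omega) hlen1 (by
        rw [hcat]
        rw [Nat.mul_succ] at h4
        omega)
      refine ⟨T', Relation.ReflTransGen.head hs r1, ?_, ?_, r4, ?_⟩
      · intro i hi
        rw [r2 i (by omega), hT1o i (by omega)]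
      · intro i j hj
        rw [r3 i j hj]
        by_cases hip : i = p
        · rw [hip, hT1, Function.update_self, Function.update_of_ne hj]
        · rw [hT1o i hip]
      · rw [cat, cat, r5, r2 p (by omega), hT1p, hcat]
        have h8 : (b :: T p k).dropLast ++ [e] = b :: T p k := List.dropLast_append_getLast _
        calc (b :: T p k).dropLast ++ e :: cat (fun i => T i k) (p + 1) m
            = ((b :: T p k).dropLast ++ [e]) ++ cat (fun i => T i k) (p + 1) m := by simp
          _ = b :: (T p k ++ cat (fun i => T i k) (p + 1) m) := by rw [h8]; rfl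

theorem pop_run {D n : ℕ} (k : K) (s : Cont K) (m : ℕ) : ∀ (p : ℕ)
    (T : ℕ → K → List Bool), 1 ≤ p → p + (m + 1) = n + 1 → (∀ i, (T i k).length ≤ D) →
    ∃ T', Rch D n (p, Ctl.pop k s, T) (1, Ctl.run s, T') ∧ (∀ i < p, T' i = T i) ∧
      (∀ i j, j ≠ k → T' i j = T i j) ∧ (∀ i, (T' i k).length ≤ D) ∧
      cat (fun i => T' i k) p (m + 1) = (cat (fun i => T i k) p (m + 1)).tail := by
  induction m with
  | zero =>
    intro p T h1 h2 h3
    have hpn : p = n := by omega
    by_cases h6 : T p k = []
    · have hs := HS.mk' (D := D) (c := Ctl.pop k s) (T := T) (n := n) (p := p)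
        (a := (Ctl.ret s, T p, none)) h1 hpn.le
        (by simp only [act, h6, if_true, decide_eq_true hpn]) h1 hpn.le
      simp only [mvp, Function.update_eq_self] at hs
      refine ⟨T, Relation.ReflTransGen.head hs (ret_run s _ p h1 hpn.le), fun _ _ => rfl,
        fun _ _ _ => rfl, h3, ?_⟩
      rw [cat, cat]
      simp [h6]
    · have hs := HS.mk' (D := D) (c := Ctl.pop k s) (T := T) (n := n) (p := p)
        (a := (Ctl.ret s, update (T p) k (T p k).tail, none)) h1 hpn.le
        (by simp only [act]; rw [if_neg h6]) h1 hpn.le
      simp only [mvp] at hs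
      refine ⟨_, Relation.ReflTransGen.head hs (ret_run s _ p h1 hpn.le), ?_, ?_, ?_, ?_⟩
      · intro i hi
        rw [Function.update_of_ne (by omega)]
      · intro i j hj
        by_cases hip : i = p
        · subst hip
          rw [Function.update_self, Function.update_of_ne hj]
        · rw [Function.update_of_ne hip]
      · intro i
        by_cases hip : i = p
        · subst hip
          rw [Function.update_self, Function.update_self, List.length_tail]
          have := h3 i
          omega
        · rw [Function.update_of_ne hip]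
          exact h3 i
      · rw [cat, cat, cat, cat, Function.update_self, Function.update_self, List.append_nil,
          List.append_nil]
  | succ m ih =>
    intro p T h1 h2 h3
    have hpn : p ≤ n := by omega
    by_cases h6 : T p k = []
    · have hs := HS.mk' (D := D) (c := Ctl.pop k s) (T := T) (n := n) (p := p)
        (a := (Ctl.pop k s, T p, some true)) h1 hpn
        (by
          have : decide (p = n) = false := decide_eq_false (by omega)
          simp only [act, h6, if_true, this]
          rfl) (by simp only [mvp]; omega) (by simp only [mvp]; omega)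
      simp only [mvp, Function.update_eq_self] at hs
      obtain ⟨T', r1, r2, r3, r4, r5⟩ := ih (p + 1) T (by omega) (by omega) h3
      refine ⟨T', Relation.ReflTransGen.head hs r1, fun i hi => r2 i (by omega), r3, r4, ?_⟩
      rw [cat, r5, r2 p (by omega)]
      conv_rhs => rw [cat]
      rw [h6, List.nil_append, List.nil_append]
    · have hs := HS.mk' (D := D) (c := Ctl.pop k s) (T := T) (n := n) (p := p)
        (a := (Ctl.ret s, update (T p) k (T p k).tail, none)) h1 hpn
        (by simp only [act]; rw [if_neg h6]) h1 hpn
      simp only [mvp] at hs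
      refine ⟨_, Relation.ReflTransGen.head hs (ret_run s _ p h1 hpn), ?_, ?_, ?_, ?_⟩
      · intro i hi
        rw [Function.update_of_ne (by omega)]
      · intro i j hj
        by_cases hip : i = p
        · subst hip
          rw [Function.update_self, Function.update_of_ne hj]
        · rw [Function.update_of_ne hip]
      · intro i
        by_cases hip : i = p
        · subst hip
          rw [Function.update_self, Function.update_self, List.length_tail]
          have := h3 i
          omega
        · rw [Function.update_of_ne hip]
          exact h3 i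
      · rw [cat, Function.update_self, Function.update_self]
        conv_rhs => rw [cat]
        rw [List.tail_append_of_ne_nil h6]
        congr 1
        refine cat_congr fun i hi => ?_
        rw [Function.update_of_ne (by omega)]

theorem test_run {D n : ℕ} (k : K) (s : List (Cmd K)) (m : ℕ) : ∀ (p : ℕ)
    (T : ℕ → K → List Bool), 1 ≤ p → p + (m + 1) = n + 1 →
    Rch D n (p, Ctl.test k s, T)
      (1, Ctl.run (nxt s (cat (fun i => T i k) p (m + 1)).head?), T) := by
  induction m with
  | zero =>
    intro p T h1 h2
    have hpn : p = n := by omega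
    by_cases h6 : T p k = []
    · have hs := HS.mk' (D := D) (c := Ctl.test k s) (T := T) (n := n) (p := p)
        (a := (Ctl.ret (nxt s none), T p, none)) h1 hpn.le
        (by simp only [act, h6, if_true, decide_eq_true hpn]) h1 hpn.le
      simp only [mvp, Function.update_eq_self] at hs
      have e : (cat (fun i => T i k) p (0 + 1)).head? = none := by
        rw [cat, cat, h6]; rfl
      rw [e]
      exact Relation.ReflTransGen.head hs (ret_run _ _ p h1 hpn.le)
    · have hs := HS.mk' (D := D) (c := Ctl.test k s) (T := T) (n := n) (p := p)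
        (a := (Ctl.ret (nxt s (T p k).head?), T p, none)) h1 hpn.le
        (by simp only [act]; rw [if_neg h6]) h1 hpn.le
      simp only [mvp, Function.update_eq_self] at hs
      have e : (cat (fun i => T i k) p (0 + 1)).head? = (T p k).head? := by
        rw [cat, cat, List.append_nil]
      rw [e]
      exact Relation.ReflTransGen.head hs (ret_run _ _ p h1 hpn.le)
  | succ m ih =>
    intro p T h1 h2
    have hpn : p ≤ n := by omega
    by_cases h6 : T p k = []
    · have hs := HS.mk' (D := D) (c := Ctl.test k s) (T := T) (n := n) (p := p)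
        (a := (Ctl.test k s, T p, some true)) h1 hpn
        (by
          have : decide (p = n) = false := decide_eq_false (by omega)
          simp only [act, h6, if_true, this]
          rfl) (by simp only [mvp]; omega) (by simp only [mvp]; omega)
      simp only [mvp, Function.update_eq_self] at hs
      have e : (cat (fun i => T i k) p (m + 1 + 1)).head? =
          (cat (fun i => T i k) (p + 1) (m + 1)).head? := by
        rw [cat, h6, List.nil_append]
      rw [e]
      exact Relation.ReflTransGen.head hs (ih (p + 1) T (by omega) (by omega))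
    · have hs := HS.mk' (D := D) (c := Ctl.test k s) (T := T) (n := n) (p := p)
        (a := (Ctl.ret (nxt s (T p k).head?), T p, none)) h1 hpn
        (by simp only [act]; rw [if_neg h6]) h1 hpn
      simp only [mvp, Function.update_eq_self] at hs
      have e : (cat (fun i => T i k) p (m + 1 + 1)).head? = (T p k).head? := by
        rw [cat]
        exact List.head?_append_of_ne_nil _ h6
      rw [e]
      exact Relation.ReflTransGen.head hs (ret_run _ _ p h1 hpn)

/-- The contents of the cells represent the stacks. -/
def Rep (D n : ℕ) (T : ℕ → K → List Bool) (σ : K → List Bool) : Prop :=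
  (∀ i k, (T i k).length ≤ D) ∧ ∀ k, cat (fun i => T i k) 1 n = σ k

theorem run_start {D n : ℕ} (hn : 1 ≤ n) (s : Cont K) (T : ℕ → K → List Bool) :
    HS D n (1, Ctl.run s, T) (1, startC s, T) := by
  have := HS.mk' (D := D) (c := Ctl.run s) (T := T) (n := n) (p := 1)
    (a := (startC s, T 1, none)) le_rfl hn rfl le_rfl hn
  simp only [mvp, Function.update_eq_self] at this
  exact this

theorem sim_push {D n : ℕ} {T : ℕ → K → List Bool} {σ : K → List Bool}
    (h : Rep D n T σ) (k : K) (b : Bool) (hlt : (σ k).length < D * n) (s : Cont K) :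
    ∃ T', Rep D n T' (update σ k (b :: σ k)) ∧
      Rch D n (1, Ctl.push k b s, T) (1, Ctl.run s, T') := by
  obtain ⟨T', r1, _, r3, r4, r5⟩ := push_run (D := D) (n := n) k s n 1 b T le_rfl (by omega)
    (fun i => h.1 i k) (by rw [h.2 k]; exact hlt)
  refine ⟨T', ⟨fun i j => ?_, fun j => ?_⟩, r1⟩
  · by_cases hj : j = k
    · subst hj; exact r4 i
    · rw [r3 i j hj]; exact h.1 i j
  · by_cases hj : j = k
    · subst hj
      rw [r5, h.2 j, Function.update_self]
    · rw [Function.update_of_ne hj, ← h.2 j]
      exact cat_congr fun i _ => r3 i j hj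

theorem sim_pop {D n : ℕ} (hn : 1 ≤ n) {T : ℕ → K → List Bool} {σ : K → List Bool}
    (h : Rep D n T σ) (k : K) (s : Cont K) :
    ∃ T', Rep D n T' (update σ k (σ k).tail) ∧
      Rch D n (1, Ctl.pop k s, T) (1, Ctl.run s, T') := by
  obtain ⟨m, rfl⟩ : ∃ m, n = m + 1 := ⟨n - 1, by omega⟩
  obtain ⟨T', r1, _, r3, r4, r5⟩ := pop_run (D := D) (n := m + 1) k s m 1 T le_rfl (by omega)
    (fun i => h.1 i k)
  refine ⟨T', ⟨fun i j => ?_, fun j => ?_⟩, r1⟩
  · by_cases hj : j = k
    · subst hj; exact r4 i
    · rw [r3 i j hj]; exact h.1 i j
  · by_cases hj : j = k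
    · subst hj
      rw [r5, h.2 j, Function.update_self]
    · rw [Function.update_of_ne hj, ← h.2 j]
      exact cat_congr fun i _ => r3 i j hj

theorem sim_test {D n : ℕ} (hn : 1 ≤ n) {T : ℕ → K → List Bool} {σ : K → List Bool}
    (h : Rep D n T σ) (k : K) (s : List (Cmd K)) :
    Rch D n (1, Ctl.test k s, T) (1, Ctl.run (nxt s (σ k).head?), T) := by
  obtain ⟨m, rfl⟩ : ∃ m, n = m + 1 := ⟨n - 1, by omega⟩
  have := test_run (D := D) (n := m + 1) k s m 1 T le_rfl (by omega)
  rwa [h.2 k] at this

/-- The head simulates the programs. -/
theorem sim {D n m₀ : ℕ} (hm : m₀ ≤ D * n) (hn : 1 ≤ n) {c : Cmd K} {σ σ' : K → List Bool}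
    (h : RunS m₀ c σ σ') : ∀ (l : List (Cmd K)) (T : ℕ → K → List Bool), Rep D n T σ →
    ∃ T', Rep D n T' σ' ∧ Rch D n (1, Ctl.run (Sum.inl (c :: l)), T)
      (1, Ctl.run (Sum.inl l), T') := by
  induction h with
  | skip s h =>
    intro l T hT
    exact ⟨T, hT, Relation.ReflTransGen.single (run_start hn _ T)⟩
  | push s k b h1 h2 =>
    intro l T hT
    have h3 := h2 k
    rw [Function.update_self, List.length_cons] at h3
    obtain ⟨T', r1, r2⟩ := sim_push hT k b (by omega) (Sum.inl l)
    exact ⟨T', r1, Relation.ReflTransGen.head (run_start hn _ T) r2⟩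
  | pop s k h1 =>
    intro l T hT
    obtain ⟨T', r1, r2⟩ := sim_pop hn hT k (Sum.inl l)
    exact ⟨T', r1, Relation.ReflTransGen.head (run_start hn _ T) r2⟩
  | seq _ _ ih1 ih2 =>
    intro l T hT
    obtain ⟨T1, r1, r2⟩ := ih1 _ T hT
    obtain ⟨T2, r3, r4⟩ := ih2 l T1 r1
    exact ⟨T2, r3, Relation.ReflTransGen.head (run_start hn _ T) (r2.trans r4)⟩
  | casesNil hk _ ih =>
    intro l T hT
    obtain ⟨T1, r1, r2⟩ := ih l T hT
    refine ⟨T1, r1, Relation.ReflTransGen.head (run_start hn _ T) ?_⟩
    refine Relation.ReflTransGen.trans (sim_test hn hT _ _) ?_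
    rw [hk]
    exact r2
  | casesFalse hk _ ih =>
    intro l T hT
    obtain ⟨T1, r1, r2⟩ := ih l T hT
    refine ⟨T1, r1, Relation.ReflTransGen.head (run_start hn _ T) ?_⟩
    refine Relation.ReflTransGen.trans (sim_test hn hT _ _) ?_
    rw [hk]
    exact r2
  | casesTrue hk _ ih =>
    intro l T hT
    obtain ⟨T1, r1, r2⟩ := ih l T hT
    refine ⟨T1, r1, Relation.ReflTransGen.head (run_start hn _ T) ?_⟩
    refine Relation.ReflTransGen.trans (sim_test hn hT _ _) ?_
    rw [hk]
    exact r2
  | @loopNil k c s hk _ =>
    intro l T hT
    refine ⟨T, hT, Relation.ReflTransGen.head (run_start hn _ T) ?_⟩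
    have := sim_test hn hT k (Cmd.loop k c :: l)
    rw [hk] at this
    exact this
  | @loopCons k c s s' s'' hk _ _ ih1 ih2 =>
    intro l T hT
    obtain ⟨T1, r1, r2⟩ := ih1 (Cmd.loop k c :: l) T hT
    obtain ⟨T2, r3, r4⟩ := ih2 l T1 r1
    refine ⟨T2, r3, Relation.ReflTransGen.head (run_start hn _ T) ?_⟩
    refine Relation.ReflTransGen.trans (sim_test hn hT _ _) ?_
    obtain ⟨b, bs, hb⟩ : ∃ b bs, s k = b :: bs := by
      cases hs : s k with
      | nil => exact absurd hs hk
      | cons b bs => exact ⟨b, bs, rfl⟩
    rw [hb]
    exact r2.trans r4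

end Pool.Agent.V7H59.CA
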