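import Pool.Agent.V7H59.CA.Arr
import Pool.Agent.V7H59.CT.Diag

/-!
# Linear cellular arrays as cellular automata on the line
-/

set_option autoImplicit false

namespace Pool.Agent.V7H59.CA

open Pool.Agent.NPC Pool.Agent.V7H59.CT

variable {m : ℕ}

/-- The word of a list of bits. -/
def ofB (x : List Bool) : List (Fin 2) := x.map fun b => if b then 1 else 0

theorem toB_ofB (x : List Bool) : toB (ofB x) = x := by
  unfold toB ofB
  rw [List.map_map]
  conv_rhs => rw [← List.map_id x]
  congr 1
  funext b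
  cases b <;> simp

theorem length_ofB (x : List Bool) : (ofB x).length = x.length := by
  unfold ofB
  rw [List.length_map]

/-- The configuration of an array on the input `w` after `t` steps. -/
def run (init : Fin 2 → Fin m) (δ : Option (Fin m) → Option (Fin m) → Option (Fin m) → Fin m)
    (w : List (Fin 2)) (t : ℕ) : ℕ → Option (Fin m) :=
  (stepA δ w.length)^[t] (fun i => if 1 ≤ i then (w[i - 1]?).map init else none)

theorem run_succ (init : Fin 2 → Fin m)
    (δ : Option (Fin m) → Option (Fin m) → Option (Fin m) → Fin m)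
    (w : List (Fin 2)) (t : ℕ) : run init δ w (t + 1) = stepA δ w.length (run init δ w t) :=
  Function.iterate_succ_apply' _ _ _

theorem run_none (init : Fin 2 → Fin m)
    (δ : Option (Fin m) → Option (Fin m) → Option (Fin m) → Fin m)
    (w : List (Fin 2)) (t i : ℕ) : run init δ w t i = none ↔ ¬ (1 ≤ i ∧ i ≤ w.length) := by
  cases t with
  | zero =>
    unfold run
    simp only [Function.iterate_zero, id]
    split_ifs with h
    · rw [Option.map_eq_none_iff, List.getElem?_eq_none_iff]
      omega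
    · constructor
      · rintro _ ⟨h1, _⟩
        exact h h1
      · intro _
        rfl
  | succ t =>
    rw [run_succ]
    unfold stepA
    split_ifs with h
    · simp [h]
    · simp [h]

/-- The automaton on the line which simulates an array, and remembers whether a cell has been in an
accepting state. -/
def toAut (init : Fin 2 → Fin m) (δ : Option (Fin m) → Option (Fin m) → Option (Fin m) → Fin m)
    (F : Finset (Fin m)) : CellAut 1 where
  Q := Option (Fin m) × Bool
  fin := inferInstance
  rule nb := if (nb fun _ => 1).1.isNone then (none, false) else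
    (some (δ (nb fun _ => 0).1 (nb fun _ => 1).1 (nb fun _ => 2).1), (nb fun _ => 1).2 ||
      decide (δ (nb fun _ => 0).1 (nb fun _ => 1).1 (nb fun _ => 2).1 ∈ F))
  input b := (some (init (if b then 1 else 0)), decide (init (if b then 1 else 0) ∈ F))
  blank := (none, false)
  acc := {q | q.2 = true}

/-- The flag of a cell. -/
def flag (init : Fin 2 → Fin m) (δ : Option (Fin m) → Option (Fin m) → Option (Fin m) → Fin m)
    (F : Finset (Fin m)) (w : List (Fin 2)) (t i : ℕ) : Prop :=
  ∃ s ≤ t, ∃ q ∈ F, run init δ w s i = some q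

theorem flag_succ (init : Fin 2 → Fin m)
    (δ : Option (Fin m) → Option (Fin m) → Option (Fin m) → Fin m)
    (F : Finset (Fin m)) (w : List (Fin 2)) (t i : ℕ) :
    flag init δ F w (t + 1) i ↔ flag init δ F w t i ∨ ∃ q ∈ F, run init δ w (t + 1) i = some q := by
  constructor
  · rintro ⟨s, hs, q, hq, h⟩
    rcases Nat.lt_or_ge t s with h1 | h1
    · have : s = t + 1 := by omega
      subst this
      exact Or.inr ⟨q, hq, h⟩
    · exact Or.inl ⟨s, h1, q, hq, h⟩
  · rintro (⟨s, hs, q, hq, h⟩ | ⟨q, hq, h⟩)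
    · exact ⟨s, by omega, q, hq, h⟩
    · exact ⟨t + 1, le_rfl, q, hq, h⟩

theorem sim_aut (init : Fin 2 → Fin m)
    (δ : Option (Fin m) → Option (Fin m) → Option (Fin m) → Fin m)
    (F : Finset (Fin m)) (x : List Bool) (t : ℕ) : ∀ z : Fin 1 → ℤ,
      (((toAut init δ F).step^[t] ((toAut init δ F).start x)) z).1 =
        run init δ (ofB x) t (z 0 + 1).toNat ∧
      ((((toAut init δ F).step^[t] ((toAut init δ F).start x)) z).2 = true ↔
        flag init δ F (ofB x) t (z 0 + 1).toNat) := by
  induction t with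
  | zero =>
    intro z
    rw [Function.iterate_zero, id]
    have e0 : flag init δ F (ofB x) 0 (z 0 + 1).toNat ↔
        ∃ q ∈ F, run init δ (ofB x) 0 (z 0 + 1).toNat = some q := by
      constructor
      · rintro ⟨s, hs, h⟩
        have : s = 0 := by omega
        subst this
        exact h
      · exact fun h => ⟨0, le_rfl, h⟩
    rw [e0]
    unfold CellAut.start run
    simp only [Function.iterate_zero, id]
    by_cases hz : 0 ≤ z 0
    · rw [if_pos ⟨fun i hi => absurd (Subsingleton.elim i 0) hi, hz⟩, if_pos (by omega)]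
      have e1 : (z 0 + 1).toNat - 1 = (z 0).toNat := by omega
      rw [e1]
      have e2 : (ofB x)[(z 0).toNat]? = (x[(z 0).toNat]?).map fun b => if b then 1 else 0 := by
        unfold ofB
        rw [List.getElem?_map]
      rw [e2]
      cases x[(z 0).toNat]? with
      | none =>
        simp [toAut]
      | some b =>
        simp [toAut]
    · rw [if_neg (fun h => hz h.2), if_neg (by omega)]
      simp [toAut]
  | succ t ih =>
    intro z
    rw [Function.iterate_succ_apply']
    set cf := (toAut init δ F).step^[t] ((toAut init δ F).start x) with hcf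
    have e0 : (z 0 + (((0 : Fin 3) : ℕ) : ℤ) - 1 + 1).toNat = (z 0 + 1).toNat - 1 := by
      simp
      omega
    have e1 : (z 0 + (((1 : Fin 3) : ℕ) : ℤ) - 1 + 1).toNat = (z 0 + 1).toNat := by
      simp
    have i0 := ih (fun i => z i + (((0 : Fin 3) : ℕ) : ℤ) - 1)
    have i1 := ih (fun i => z i + (((1 : Fin 3) : ℕ) : ℤ) - 1)
    have i2 := ih (fun i => z i + (((2 : Fin 3) : ℕ) : ℤ) - 1)
    rw [e0] at i0
    rw [e1] at i1
    have hs : (toAut init δ F).step cf z = if (cf fun i => z i + (((1 : Fin 3) : ℕ) : ℤ) - 1).1.isNone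
        then (none, false) else
      (some (δ (cf fun i => z i + (((0 : Fin 3) : ℕ) : ℤ) - 1).1
        (cf fun i => z i + (((1 : Fin 3) : ℕ) : ℤ) - 1).1
        (cf fun i => z i + (((2 : Fin 3) : ℕ) : ℤ) - 1).1),
        (cf fun i => z i + (((1 : Fin 3) : ℕ) : ℤ) - 1).2 ||
      decide (δ (cf fun i => z i + (((0 : Fin 3) : ℕ) : ℤ) - 1).1
        (cf fun i => z i + (((1 : Fin 3) : ℕ) : ℤ) - 1).1
        (cf fun i => z i + (((2 : Fin 3) : ℕ) : ℤ) - 1).1 ∈ F)) := rfl
    rw [hs, flag_succ]
    by_cases hb : 1 ≤ (z 0 + 1).toNat ∧ (z 0 + 1).toNat ≤ (ofB x).length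
    · have hn : run init δ (ofB x) t (z 0 + 1).toNat ≠ none := fun h => (run_none _ _ _ _ _).1 h hb
      have e2 : (z 0 + (((2 : Fin 3) : ℕ) : ℤ) - 1 + 1).toNat = (z 0 + 1).toNat + 1 := by
        simp
        omega
      rw [e2] at i2
      have hr : run init δ (ofB x) (t + 1) (z 0 + 1).toNat =
          some (δ (run init δ (ofB x) t ((z 0 + 1).toNat - 1)) (run init δ (ofB x) t (z 0 + 1).toNat)
            (run init δ (ofB x) t ((z 0 + 1).toNat + 1))) := by
        rw [run_succ]
        unfold stepA
        rw [if_pos hb]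
      rw [hr, if_neg (by rw [i1.1]; simpa using hn), i0.1, i1.1, i2.1]
      refine ⟨rfl, ?_⟩
      rw [Bool.or_eq_true, i1.2, decide_eq_true_iff]
      refine or_congr Iff.rfl ?_
      constructor
      · exact fun h => ⟨_, h, rfl⟩
      · rintro ⟨q, hq, h⟩
        rw [Option.some.injEq] at h
        rwa [h]
    · have hn : run init δ (ofB x) t (z 0 + 1).toNat = none := (run_none _ _ _ _ _).2 hb
      have hn' : run init δ (ofB x) (t + 1) (z 0 + 1).toNat = none := (run_none _ _ _ _ _).2 hb
      rw [if_pos (by rw [i1.1, hn]; rfl), hn']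
      refine ⟨rfl, ?_⟩
      constructor
      · intro h
        exact absurd h (by simp)
      · rintro (⟨s, hs, q, hq, h⟩ | ⟨q, hq, h⟩)
        · have := (run_none init δ (ofB x) s (z 0 + 1).toNat).2 hb
          rw [this] at h
          exact absurd h (by simp)
        · exact absurd h (by simp)

theorem accepts_iff (init : Fin 2 → Fin m)
    (δ : Option (Fin m) → Option (Fin m) → Option (Fin m) → Fin m)
    (F : Finset (Fin m)) (x : List Bool) (t : ℕ) :
    (toAut init δ F).accepts x t ↔ ∃ s ≤ t, ∃ q ∈ F, run init δ (ofB x) s 1 = some q := by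
  have h := (sim_aut init δ F x t 0).2
  exact h

/-- **Smith's question.** Some language of a linear cellular array is not accepted by such an array in
time `c n ^ 2 / log n`. -/
theorem exists_hard (c : ℕ) : ∃ (m : ℕ) (init : Fin 2 → Fin m)
    (δ : Option (Fin m) → Option (Fin m) → Option (Fin m) → Fin m) (F : Finset (Fin m)),
    ∀ (m' : ℕ) (init' : Fin 2 → Fin m')
      (δ' : Option (Fin m') → Option (Fin m') → Option (Fin m') → Fin m') (F' : Finset (Fin m')),
      ∃ n₀ : ℕ, ∀ n ≥ n₀, ∀ t : ℕ,
        t * Nat.log 2 n * (Nat.log 2 (Fintype.card (Option (Fin m') × Bool)) + 1) ≤ c * n ^ 2 →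
        ∃ w : List (Fin 2), w.length = n ∧
          ¬ ((∃ s, ∃ q ∈ F, run init δ w s 1 = some q) ↔
            ∃ s ≤ t, ∃ q ∈ F', run init' δ' w s 1 = some q) := by
  obtain ⟨cm, C, f, hf, hr⟩ := lang_run 1 (Cst 1 (2 ^ (1 + 1) * c))
  obtain ⟨m, init, δ, F, hF⟩ := exists_array _ C f fun x => runS_fin (hr x)
  refine ⟨m, init, δ, F, fun m' init' δ' F' => ?_⟩
  obtain ⟨n₀, h₀⟩ := lang_hard 1 c
  refine ⟨max (max n₀ 1) (Fintype.card (Option (Fin m') × Bool) ^ (3 ^ 1 + 2)), fun n hn t ht => ?_⟩
  obtain ⟨hn1, hn2⟩ := max_le_iff.1 hn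
  obtain ⟨hn3, hn4⟩ := max_le_iff.1 hn1
  obtain ⟨x, hx, h⟩ := h₀ n hn3 (toAut init' δ' F') hn2 t (by rw [pow_one]; exact ht)
  refine ⟨ofB x, by rw [length_ofB, hx], fun h1 => h ?_⟩
  rw [accepts_iff, ← h1, hf]
  have h2 := hF (ofB x)
  rw [toB_ofB] at h2
  have h3 : ofB x ≠ [] := by
    intro h4
    have h5 := length_ofB x
    rw [h4, hx] at h5
    simp at h5
    omega
  exact ⟨fun h4 => h2.2 ⟨h3, h4⟩, fun h4 => (h2.1 h4).2⟩

end Pool.Agent.V7H59.CA
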